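import Pool.Agent.Lib.MP_f42089_lc.Ind

/-! Canonical form of functions on increasing triples of order indiscernibles. -/

namespace Pool.Agent.Lib.MP_f42089_lc

open Set Cardinal Function

theorem can_sm {X : Type} [Preorder X] {a : Fin 3 → X} :
    StrictMono a ↔ a 0 < a 1 ∧ a 1 < a 2 := by
  rw [Fin.strictMono_iff_lt_succ]
  exact ⟨fun h => ⟨h 0, h 1⟩, fun h i => by
    fin_cases i
    · exact h.1
    · exact h.2⟩

section General

variable {X T I : Type} [LinearOrder X]

/-- Equalities between values depend only on the order pattern of the two triples. -/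
def CanInd (G : (Fin 3 → X) → T → I) : Prop :=
  ∀ s t a b a' b', StrictMono a → StrictMono b → StrictMono a' → StrictMono b' →
    (∀ i j, a i < b j ↔ a' i < b' j) → (∀ i j, b i < a j ↔ b' i < a' j) →
      G a s = G b t → G a' s = G b' t

/-- The position `p` is inessential for `s`. -/
def CanIn (G : (Fin 3 → X) → T → I) (s : T) (p : Fin 3) : Prop :=
  ∃ a x, StrictMono a ∧ StrictMono (update a p x) ∧ a p < x ∧ G a s = G (update a p x) s

variable {G : (Fin 3 → X) → T → I} {s t : T} {p : Fin 3} {a b : Fin 3 → X} {x : X}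

theorem can_pat1 (ha : StrictMono a) (hu : StrictMono (update a p x)) (hx : a p < x)
    (i j : Fin 3) : a i < update a p x j ↔ i < j ∨ (i = p ∧ j = p) := by
  by_cases hj : j = p
  · subst hj
    rw [update_self]
    rcases lt_trichotomy i j with h | h | h
    · exact iff_of_true ((ha h).trans hx) (Or.inl h)
    · exact iff_of_true (h ▸ hx) (Or.inr ⟨h, rfl⟩)
    · have := hu h
      rw [update_self, update_of_ne h.ne'] at this
      exact iff_of_false this.not_gt fun h' => h'.elim h.not_gt fun h' => h.ne' h'.1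
  · rw [update_of_ne hj, ha.lt_iff_lt]
    exact ⟨Or.inl, fun h => h.elim id fun h => absurd h.2 hj⟩

theorem can_pat2 (ha : StrictMono a) (hu : StrictMono (update a p x)) (hx : a p < x)
    (i j : Fin 3) : update a p x i < a j ↔ i < j := by
  by_cases hi : i = p
  · subst hi
    refine ⟨fun h => ?_, fun h => ?_⟩
    · rw [update_self] at h
      exact ha.lt_iff_lt.1 (hx.trans h)
    · have := hu h
      rwa [update_of_ne h.ne'] at this
  · rw [update_of_ne hi, ha.lt_iff_lt]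

theorem can_step (hG : CanInd G) (ha : StrictMono a) (hu : StrictMono (update a p x))
    (hx : a p ≤ x) (h : ¬ CanIn G s p → a p = x) : G a s = G (update a p x) s := by
  rcases hx.eq_or_lt with e | hx
  · rw [← e, update_eq_self]
  obtain ⟨c, z, hc, hz, hcz, e⟩ : CanIn G s p := by_contra fun n => hx.ne (h n)
  exact hG s s _ _ _ _ hc hz ha hu
    (fun i j => by rw [can_pat1 hc hz hcz, can_pat1 ha hu hx])
    (fun i j => by rw [can_pat2 hc hz hcz, can_pat2 ha hu hx]) e

theorem can_up (hG : CanInd G) (ha : StrictMono a) (hb : StrictMono b) (hab : a ≤ b)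
    (h : ∀ p, ¬ CanIn G s p → a p = b p) : G a s = G b s := by
  obtain ⟨a1, a2⟩ := can_sm.1 ha
  obtain ⟨b1, b2⟩ := can_sm.1 hb
  have h2 : StrictMono (update a 2 (b 2)) := can_sm.2 ⟨a1, a2.trans_le (hab 2)⟩
  have h1 : StrictMono (update (update a 2 (b 2)) 1 (b 1)) :=
    can_sm.2 ⟨a1.trans_le (hab 1), b2⟩
  have e : update (update (update a 2 (b 2)) 1 (b 1)) 0 (b 0) = b := by
    funext i
    fin_cases i <;> rfl
  rw [can_step hG ha h2 (hab 2) (h 2), can_step hG h2 h1 (hab 1) (h 1),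
    can_step hG h1 (e.symm ▸ hb) (hab 0) (h 0), e]

theorem can_agree (hG : CanInd G) (ha : StrictMono a) (hb : StrictMono b)
    (h : ∀ p, ¬ CanIn G s p → a p = b p) : G a s = G b s := by
  have hm : StrictMono (a ⊔ b) := fun _ _ h => max_lt_max (ha h) (hb h)
  rw [can_up hG ha hm le_sup_left fun p hp => by rw [Pi.sup_apply, ← h p hp, sup_idem],
    can_up hG hb hm le_sup_right fun p hp => by rw [Pi.sup_apply, h p hp, sup_idem]]

theorem can_move (hG : CanInd G) (ha : StrictMono a) (hb : StrictMono b) (hx : a p < x)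
    (h1 : ∀ j, p < j → x < a j) (h2 : ∀ j, b j < a p ∨ x < b j) (e : G a s = G b t) :
    CanIn G s p := by
  have hu : StrictMono (update a p x) := fun i j hij => by
    by_cases hi : i = p
    · subst hi
      rw [update_self, update_of_ne hij.ne']
      exact h1 j hij
    · by_cases hj : j = p
      · subst hj
        rw [update_self, update_of_ne hi]
        exact (ha hij).trans hx
      · rw [update_of_ne hi, update_of_ne hj]
        exact ha hij
  refine ⟨a, x, ha, hu, hx, e.trans (hG s t _ _ _ _ ha hb hu hb (fun i j => ?_)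
    (fun j i => ?_) e).symm⟩
  · by_cases hi : i = p
    · subst hi
      rw [update_self]
      exact ⟨fun h => (h2 j).resolve_left h.not_gt, hx.trans⟩
    · rw [update_of_ne hi]
  · by_cases hi : i = p
    · subst hi
      rw [update_self]
      exact ⟨fun h => h.trans hx, fun h => (h2 j).resolve_right h.not_gt⟩
    · rw [update_of_ne hi]

end General

/-- The index of the essential position that is next to a given position. -/
def canIdx : Fin 8 → Fin 3 → Fin 3 :=
  ![![0, 0, 0], ![0, 0, 0], ![0, 0, 0], ![0, 0, 0], ![0, 1, 1], ![0, 0, 1], ![0, 0, 1], ![0, 1, 2]]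

/-- The offset of a position. -/
def canOff : Fin 8 → Fin 3 → ℕ :=
  ![![0, 1, 2], ![2, 3, 4], ![1, 2, 3], ![0, 1, 2], ![2, 2, 3], ![2, 3, 2], ![1, 2, 2], ![2, 2, 2]]

/-- The continuation of a sublist to an increasing triple. -/
def canTb : Fin 8 → Fin 3 → Fin 5 :=
  ![![0, 1, 2], ![0, 1, 2], ![1, 2, 3], ![2, 3, 4], ![0, 1, 2], ![0, 2, 3], ![1, 2, 3], ![0, 1, 2]]

section Lex

variable {A T I : Type} [LinearOrder A]

/-- The normal form over an increasing triple. -/
def canNf (σ : Fin 8) (v : Fin 3 → A) (p : Fin 3) : A ×ₗ ℕ := toLex (v (canIdx σ p), canOff σ p)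

/-- The standard copy of a triple. -/
def canY (a : Fin 3 → A) (p : Fin 3) : A ×ₗ ℕ := toLex (a p, 2)

variable {G : (Fin 3 → A ×ₗ ℕ) → T → I} {s t : T} {a b v v' : Fin 3 → A} {σ σ' : Fin 8}

theorem can_nf_lt (hv : StrictMono v) (σ σ' : Fin 8) (p q : Fin 3) :
    canNf σ v p < canNf σ' v q ↔
      canIdx σ p < canIdx σ' q ∨ canIdx σ p = canIdx σ' q ∧ canOff σ p < canOff σ' q := by
  simp only [canNf, Prod.Lex.toLex_lt_toLex, hv.lt_iff_lt, hv.injective.eq_iff]

theorem can_nf_mono (hv : StrictMono v) (σ : Fin 8) : StrictMono (canNf σ v) := fun p q h => by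
  rw [can_nf_lt hv]
  revert σ p q
  decide

theorem can_y_mono (ha : StrictMono a) : StrictMono (canY a) :=
  fun _ _ h => Prod.Lex.toLex_lt_toLex.2 (Or.inl (ha h))

theorem can_pat (hG : CanInd G) (hv : StrictMono v) (hv' : StrictMono v')
    (e : G (canNf σ v) s = G (canNf σ' v) t) : G (canNf σ v') s = G (canNf σ' v') t :=
  hG s t _ _ _ _ (can_nf_mono hv _) (can_nf_mono hv _) (can_nf_mono hv' _) (can_nf_mono hv' _)
    (fun i j => by rw [can_nf_lt hv, can_nf_lt hv'])
    (fun i j => by rw [can_nf_lt hv, can_nf_lt hv']) e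

theorem can_nf (hG : CanInd G) (ha : StrictMono a) (hv : StrictMono v)
    (hσ : ∀ p, p ∈ lst σ ↔ ¬ CanIn G s p)
    (h : ∀ (j : Fin 3) x, ((lst σ).map a)[j.val]? = some x → v j = x) :
    G (canY a) s = G (canNf σ v) s := by
  refine can_agree hG (can_y_mono ha) (can_nf_mono hv σ) fun p hp => ?_
  have k : ∀ (σ : Fin 8) (p : Fin 3), p ∈ lst σ →
      canOff σ p = 2 ∧ (lst σ)[(canIdx σ p).val]? = some p := by decide
  obtain ⟨k1, k2⟩ := k σ p ((hσ p).2 hp)
  rw [canNf, canY, k1, h (canIdx σ p) (a p) (by rw [List.getElem?_map, k2]; rfl)]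

theorem can_ext [NoMaxOrder A] (ha : StrictMono a) (σ : Fin 8) :
    ∃ v : Fin 3 → A, StrictMono v ∧
      ∀ (j : Fin 3) x, ((lst σ).map a)[j.val]? = some x → v j = x := by
  obtain ⟨d, hd⟩ := exists_gt (a 2)
  obtain ⟨d', hd'⟩ := exists_gt d
  obtain ⟨a1, a2⟩ := can_sm.1 ha
  have hw : StrictMono ![a 0, a 1, a 2, d, d'] := by
    rw [Fin.strictMono_iff_lt_succ]
    intro i
    fin_cases i
    exacts [a1, a2, hd, hd']
  have k1 : ∀ (σ : Fin 8) (i j : Fin 3), i < j → canTb σ i < canTb σ j := by decide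
  have k2 : ∀ (σ : Fin 8) (j p : Fin 3), (lst σ)[j.val]? = some p →
      canTb σ j = p.castSucc.castSucc := by decide
  refine ⟨fun j => ![a 0, a 1, a 2, d, d'] (canTb σ j), fun i j h => hw (k1 σ i j h),
    fun j x h => ?_⟩
  rw [List.getElem?_map, Option.map_eq_some_iff] at h
  obtain ⟨p, hp, rfl⟩ := h
  simp only [k2 σ j p hp]
  fin_cases p <;> rfl

theorem can_ess (hG : CanInd G) (ha : StrictMono a) (hb : StrictMono b)
    (e : G (canY a) s = G (canY b) t) {p : Fin 3} (hp : ¬ CanIn G s p) :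
    ∃ q, ¬ CanIn G t q ∧ b q = a p := by
  by_contra hn
  have hB : StrictMono fun j => (toLex (b j, if b j = a p then 4 else 2) : A ×ₗ ℕ) :=
    fun _ _ h => Prod.Lex.toLex_lt_toLex.2 (Or.inl (hb h))
  refine hp (can_move (x := toLex (a p, 3)) hG (can_y_mono ha) hB
    (Prod.Lex.toLex_lt_toLex.2 (Or.inr ⟨rfl, by norm_num⟩))
    (fun j h => Prod.Lex.toLex_lt_toLex.2 (Or.inl (ha h))) (fun j => ?_)
    (e.trans (can_agree hG (can_y_mono hb) hB fun q hq => ?_)))
  · rcases lt_trichotomy (b j) (a p) with h | h | h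
    · exact Or.inl (Prod.Lex.toLex_lt_toLex.2 (Or.inl h))
    · exact Or.inr (Prod.Lex.toLex_lt_toLex.2 (Or.inr ⟨h.symm, by simp [h]⟩))
    · exact Or.inr (Prod.Lex.toLex_lt_toLex.2 (Or.inl h))
  · rw [canY, if_neg fun h => hn ⟨q, hq, h⟩]

theorem can_list (hG : CanInd G) (ha : StrictMono a) (hb : StrictMono b)
    (hσ : ∀ p, p ∈ lst σ ↔ ¬ CanIn G s p) (hσ' : ∀ p, p ∈ lst σ' ↔ ¬ CanIn G t p)
    (e : G (canY a) s = G (canY b) t) : (lst σ).map a = (lst σ').map b := by
  have k : ∀ σ : Fin 8, (lst σ).Pairwise (· < ·) := by decide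
  refine List.Pairwise.eq_of_mem_iff (r := (· < ·)) ((k σ).map a fun _ _ h => ha h)
    ((k σ').map b fun _ _ h => hb h) fun x => ?_
  simp only [List.mem_map]
  constructor
  · rintro ⟨p, hp, rfl⟩
    obtain ⟨q, h1, h2⟩ := can_ess hG ha hb e ((hσ p).1 hp)
    exact ⟨q, (hσ' q).2 h1, h2⟩
  · rintro ⟨p, hp, rfl⟩
    obtain ⟨q, h1, h2⟩ := can_ess hG hb ha e.symm ((hσ' p).1 hp)
    exact ⟨q, (hσ q).2 h1, h2⟩

theorem can_main [NoMaxOrder A] [Nonempty A] (hG : CanInd G) :
    ∃ (cl : T → I) (sg : T → Fin 8), ∀ a b : Fin 3 → A, StrictMono a → StrictMono b → ∀ s t,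
      G (canY a) s = G (canY b) t ↔ cl s = cl t ∧ (lst (sg s)).map a = (lst (sg t)).map b := by
  classical
  have k : ∀ P : Fin 3 → Bool, ∃ σ : Fin 8, ∀ p, p ∈ lst σ ↔ P p = true := by decide
  choose sg hsg using fun s => k fun p => decide (¬ CanIn G s p)
  simp only [decide_eq_true_eq] at hsg
  obtain ⟨v0, h0⟩ : ∃ v : Fin 3 → A, StrictMono v := by
    obtain ⟨x⟩ := ‹Nonempty A›
    obtain ⟨y, hy⟩ := exists_gt x
    obtain ⟨z, hz⟩ := exists_gt y
    exact ⟨![x, y, z], can_sm.2 ⟨hy, hz⟩⟩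
  refine ⟨fun s => G (canNf (sg s) v0) s, sg, fun a b ha hb s t => ?_⟩
  obtain ⟨v, hv, h⟩ := can_ext ha (sg s)
  have e1 := can_nf hG ha hv (hsg s) h
  refine ⟨fun e => ?_, fun e => ?_⟩
  · have hl := can_list hG ha hb (hsg s) (hsg t) e
    have e2 := can_nf hG hb hv (hsg t) (hl ▸ h)
    exact ⟨can_pat hG hv h0 (e1.symm.trans (e.trans e2)), hl⟩
  · have e2 := can_nf hG hb hv (hsg t) (e.2 ▸ h)
    exact e1.trans ((can_pat hG h0 hv e.1).trans e2.symm)

end Lex

theorem canon (T τ : Type) : ∃ (Y : Type) (_ : LinearOrder Y), ∀ (I : Type)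
    (f : Y → Y → Y → T → I) (R : τ → Y → Y → Y → Prop),
    ∃ (y : O1 → Y) (cl : T → I) (sg : T → Fin 8), StrictMono y ∧
      ∀ a b c a' b' c' : O1, a < b → b < c → a' < b' → b' < c' →
        (∀ u, R u (y a) (y b) (y c) → R u (y a') (y b') (y c')) ∧
        ∀ s t, f (y a) (y b) (y c) s = f (y a') (y b') (y c') t ↔
          cl s = cl t ∧ (lst (sg s)).map ![a, b, c] = (lst (sg t)).map ![a', b', c'] := by
  obtain ⟨Y, hY, H⟩ := indisc (τ ⊕ T × T)
  refine ⟨Y, hY, fun I f R => ?_⟩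
  obtain ⟨e, he, h⟩ := H (Sum.elim (fun u x => R u (x 0) (x 1) (x 2))
    fun u x => f (x 0) (x 1) (x 2) u.1 = f (x 3) (x 4) (x 5) u.2)
  have : Nonempty O1 := ⟨(O1.bdd countable_empty).choose⟩
  have : NoMaxOrder O1 := ⟨fun a => (O1.bdd (countable_singleton a)).imp fun _ h => h a rfl⟩
  have hG : CanInd fun (a : Fin 3 → O1 ×ₗ ℕ) (s : T) => f (e (a 0)) (e (a 1)) (e (a 2)) s := by
    intro s t a b a' b' ha hb ha' hb' h1 h2
    have k : ∀ i j : Fin 3 ⊕ Fin 3,
        Sum.elim a b i < Sum.elim a b j ↔ Sum.elim a' b' i < Sum.elim a' b' j := by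
      rintro (i | i) (j | j)
      · exact ha.lt_iff_lt.trans ha'.lt_iff_lt.symm
      · exact h1 i j
      · exact h2 i j
      · exact hb.lt_iff_lt.trans hb'.lt_iff_lt.symm
    exact h (Sum.inr (s, t))
      (Sum.elim a b ∘ ![.inl 0, .inl 1, .inl 2, .inr 0, .inr 1, .inr 2])
      (Sum.elim a' b' ∘ ![.inl 0, .inl 1, .inl 2, .inr 0, .inr 1, .inr 2]) fun i j => k _ _
  obtain ⟨cl, sg, hm⟩ := can_main hG
  refine ⟨fun a => e (toLex (a, 2)), cl, sg,
    fun _ _ h => he (Prod.Lex.toLex_lt_toLex.2 (Or.inl h)), fun a b c a' b' c' h1 h2 h3 h4 => ?_⟩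
  have ha : StrictMono ![a, b, c] := can_sm.2 ⟨h1, h2⟩
  have hb : StrictMono ![a', b', c'] := can_sm.2 ⟨h3, h4⟩
  exact ⟨fun u => h (Sum.inl u) (canY ![a, b, c] ∘ ![0, 1, 2, 0, 1, 2])
    (canY ![a', b', c'] ∘ ![0, 1, 2, 0, 1, 2])
    fun i j => (can_y_mono ha).lt_iff_lt.trans (can_y_mono hb).lt_iff_lt.symm, hm _ _ ha hb⟩

end Pool.Agent.Lib.MP_f42089_lc
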