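import Mathlib

/-! Counting colours. -/

namespace Pool.Agent.Lib.MP_f42089_lc

open Finset

variable {K : Type}

/-- Two families of sets with at most six points, each covering eleven of at most thirteen points,
contain two sets with at most ten points together. -/
theorem count [Fintype K] [DecidableEq K] (hK : Fintype.card K ≤ 13) {ι κ : Type}
    (P : ι → Finset K) (L : κ → Finset K) (hP : ∀ i, (P i).card ≤ 6) (hL : ∀ i, (L i).card ≤ 6)
    {U V : Finset K} (hU : 11 ≤ U.card) (hV : 11 ≤ V.card) (h1 : ∀ x ∈ U, ∃ i, x ∈ P i)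
    (h2 : ∀ x ∈ V, ∃ i, x ∈ L i) : ∃ i j, (P i ∪ L j).card ≤ 10 := by
  by_contra hc
  replace hc : ∀ i j, 11 ≤ (P i ∪ L j).card := fun i j => by
    by_contra h
    exact hc ⟨i, j, by omega⟩
  have c1 : ∀ i j, (P i ∩ L j).card ≤ 1 := fun i j => by
    have := card_union_add_card_inter (P i) (L j)
    have := hc i j
    have := hP i
    have := hL j
    omega
  have c2 : ∀ i, (P i).card = 6 := fun i => by
    by_contra h
    have h3 : V ⊆ (P i)ᶜ := fun x hx => mem_compl.2 fun hx' => by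
      obtain ⟨j, hj⟩ := h2 x hx
      have := card_union_add_card_inter (P i) (L j)
      have := card_pos.2 ⟨x, mem_inter.2 ⟨hx', hj⟩⟩
      have := hc i j
      have := hP i
      have := hL j
      omega
    obtain ⟨x, hx⟩ : V.Nonempty := card_pos.1 (by omega)
    obtain ⟨j, -⟩ := h2 x hx
    have := card_le_card h3
    have := card_union_le (P i) (L j)
    have := hc i j
    have := hL j
    rw [card_compl] at *
    omega
  obtain ⟨x₀, hx₀⟩ : U.Nonempty := card_pos.1 (by omega)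
  obtain ⟨i₀, -⟩ := h1 x₀ hx₀
  obtain ⟨I, hI, hI4⟩ : ∃ I ⊆ V ∩ P i₀, I.card = 4 := exists_subset_card_eq (by
    have := card_sdiff_add_card_inter V (P i₀)
    have h3 : (V \ P i₀).card ≤ (P i₀)ᶜ.card :=
      card_le_card fun x hx => mem_compl.2 (mem_sdiff.1 hx).2
    rw [card_compl, c2] at h3
    omega)
  have : Nonempty κ := by
    obtain ⟨x, hx⟩ : V.Nonempty := card_pos.1 (by omega)
    exact ⟨(h2 x hx).choose⟩
  choose! l hl using h2
  have c3 : ∀ a, (P i₀ ∪ L (l a))ᶜ.card ≤ 2 := fun a => by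
    have := hc i₀ (l a)
    rw [card_compl]
    omega
  have c4 : (U \ P i₀).card * 2 ≤ I.card * 2 := by
    refine card_mul_le_card_mul (fun x a => x ∈ (P i₀ ∪ L (l a))ᶜ) (fun x hx => ?_)
      fun a _ => (card_le_card fun x hx => (mem_filter.1 hx).2).trans (c3 a)
    obtain ⟨i, hi⟩ := h1 x (mem_sdiff.1 hx).1
    have d1 : ∀ a ∈ I ∩ P i, P i \ P i₀ ⊆ (P i₀ ∪ L (l a))ᶜ := fun a ha y hy => by
      have ha' := mem_inter.1 (hI (mem_inter.1 ha).1)
      refine mem_compl.2 fun h => (mem_union.1 h).elim (mem_sdiff.1 hy).2 fun h' => ?_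
      exact (mem_sdiff.1 hy).2 (card_le_one.1 (c1 i (l a)) a
        (mem_inter.2 ⟨(mem_inter.1 ha).2, hl a ha'.1⟩) y (mem_inter.2 ⟨(mem_sdiff.1 hy).1, h'⟩) ▸
          ha'.2)
    have d2 : (I \ P i).card ≤ (P i \ P i₀).card := by
      rw [card_sdiff_comm ((c2 i).trans (c2 i₀).symm)]
      exact card_le_card fun y hy => mem_sdiff.2
        ⟨(mem_inter.1 (hI (mem_sdiff.1 hy).1)).2, (mem_sdiff.1 hy).2⟩
    have d3 := card_sdiff_add_card_inter I (P i)
    have d4 : (P i \ P i₀).card ≤ 3 := by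
      have h3 : P i \ P i₀ ⊆ (P i ∩ L (l x)) ∪ (P i₀ ∪ L (l x))ᶜ := fun y hy => by
        simp only [mem_sdiff, mem_union, mem_inter, mem_compl] at hy ⊢
        tauto
      have := (card_le_card h3).trans (card_union_le _ _)
      have := c1 i (l x)
      have := c3 x
      omega
    obtain ⟨a, ha⟩ : (I ∩ P i).Nonempty := card_pos.1 (by omega)
    have d5 := (card_le_card (d1 a ha)).trans (c3 a)
    refine le_trans (by omega : 2 ≤ (I ∩ P i).card) (card_le_card fun b hb => ?_)
    exact mem_filter.2 ⟨(mem_inter.1 hb).1, d1 b hb (mem_sdiff.2 ⟨hi, (mem_sdiff.1 hx).2⟩)⟩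
  have := card_sdiff_add_card_inter U (P i₀)
  have := (card_le_card (inter_subset_right (s₁ := U) (s₂ := P i₀))).trans (hP i₀)
  omega

/-- The number of colours that cannot be avoided among `k` colours is at most `bnd k`. -/
def bnd (k : ℕ) : ℕ := if k ≤ 13 then 10 else if k ≤ 23 then 11 else 12

theorem count' [Fintype K] [DecidableEq K] {ι κ : Type}
    (P : ι → Finset K) (L : κ → Finset K) (hP : ∀ i, (P i).card ≤ 6) (hL : ∀ i, (L i).card ≤ 6)
    {U V : Finset K} (hU : bnd (Fintype.card K) < U.card) (hV : bnd (Fintype.card K) < V.card)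
    (h1 : ∀ x ∈ U, ∃ i, x ∈ P i) (h2 : ∀ x ∈ V, ∃ i, x ∈ L i) :
    ∃ i j, (P i ∪ L j).card ≤ bnd (Fintype.card K) := by
  unfold bnd at *
  split_ifs at * with a b
  · exact count a P L hP hL hU hV h1 h2
  · obtain ⟨x, hx⟩ : (U ∩ V).Nonempty := card_pos.1 (by
      have := card_union_add_card_inter U V
      have := card_le_univ (U ∪ V)
      omega)
    obtain ⟨i, hi⟩ := h1 x (mem_inter.1 hx).1
    obtain ⟨j, hj⟩ := h2 x (mem_inter.1 hx).2
    have := card_union_add_card_inter (P i) (L j)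
    have := card_pos.2 ⟨x, mem_inter.2 ⟨hi, hj⟩⟩
    have := hP i
    have := hL j
    exact ⟨i, j, by omega⟩
  · obtain ⟨x, hx⟩ : U.Nonempty := card_pos.1 (by omega)
    obtain ⟨y, hy⟩ : V.Nonempty := card_pos.1 (by omega)
    obtain ⟨i, -⟩ := h1 x hx
    obtain ⟨j, -⟩ := h2 y hy
    have := card_union_le (P i) (L j)
    have := hP i
    have := hL j
    exact ⟨i, j, by omega⟩

end Pool.Agent.Lib.MP_f42089_lc
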