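import Pool.Agent.Lib.MP_f42089_lc.Defs

/-! The perfect tree of safe triples. -/

namespace Pool.Agent.Lib.MP_f42089_lc

open Set Cardinal

variable {Q K : Type} [Preorder Q] {F : (Fin 8 → Q) → K → Prop} {p : Q}
  {𝓕 : Set (Set (Mv Q))} {σ : Q × Q} {ρ lam : Od → K} {j : Set K} {ι κ : Type}

variable (F 𝓕 σ j) in
/-- The invariant of a stage with set of leaves `A`. -/
structure PerfInv (A : Set ι) (z : List ι → Q) (G : ι → Set (Set (Mv Q))) : Prop where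
  root : z [] ≤ σ.1
  sub : ∀ a ∈ A, 𝓕 ⊆ G a
  pt : ∀ a ∈ A, z [a] ≤ σ.2
  lar : ∀ a ∈ A, Large (G a) (z [], z [a])
  two : ∀ a ∈ A, ∀ c ∈ A, a ≠ c → ∀ d ≤ (z [c], z [c, a], z [a, c]),
    ∃ τ, (∀ o, τ o ∈ j) ∧ Ach F d τ ∈ G a
  tri : ∀ a ∈ A, ∀ b ∈ A, ∀ c ∈ A, a ≠ b → a ≠ c → b ≠ c → ∃ j' ∈ j, F (cube z a b c) j'

/-- The diagram `z'` extends `z` along `π`. -/
def PerfLink (z' : List κ → Q) (z : List ι → Q) (π : κ → ι) : Prop :=
  ∀ l, (l.map π).Nodup → z' l ≤ z (l.map π)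

theorem perf_cube {z' : List κ → Q} {z : List ι → Q} {π : κ → ι} (h : PerfLink z' z π)
    {a b c : κ} (h1 : π a ≠ π b) (h2 : π a ≠ π c) (h3 : π b ≠ π c) :
    cube z' a b c ≤ cube z (π a) (π b) (π c) := fun m => by
  fin_cases m <;> exact h _ (by simp [*])

theorem perf_split (hρ : ∀ π, ρ π ∈ j) (hl : ∀ π, lam π ∈ j)
    (hmin : ∀ 𝓕' σ', 𝓕 ⊆ 𝓕' → σ' ≤ σ → Large 𝓕' σ' →
      ρ ∈ Rs F false 𝓕' σ' ∧ lam ∈ Rs F true 𝓕' σ') {G 𝒞 : Set (Set (Mv Q))} {τ : Q × Q}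
    (h1 : 𝓕 ⊆ G) (h2 : τ ≤ σ) (h3 : Large G τ) (h4 : 𝒞 ⊆ G) (h5 : 𝒞.Countable) :
    ∃ t, Und t τ ∧ ∀ s ≤ t, (∀ D ∈ 𝒞, s ∈ D) ∧ ∃ H : Bool → Set (Set (Mv Q)), ∀ b, G ⊆ H b ∧
      Large (H b) (s [], s [b]) ∧ ∀ d ≤ dat (!b) s, ∃ τ, (∀ o, τ o ∈ j) ∧ Ach F d τ ∈ H b := by
  obtain ⟨σ1, a1, b1⟩ := (hmin G τ h1 h2 h3).1
  obtain ⟨σ2, a2, b2⟩ := (hmin _ σ1 (h1.trans (subset_insert _ _)) (a1.trans h2) b1).2
  obtain ⟨t, c1, c2⟩ := b2 (insert _ (insert _ 𝒞))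
    (insert_subset_insert (insert_subset_insert h4)) ((h5.insert _).insert _) σ2 le_rfl
  refine ⟨t, c1.mono le_rfl (a2.trans a1), fun s hs => ⟨fun D hD => c2 s hs D (.inr (.inr hD)),
    fun b => Bool.rec (Ext F (insert (Gd F false ρ G) G) (dat true s) lam)
      (Ext F G (dat false s) ρ) b, fun b => ?_⟩⟩
  cases b
  · exact ⟨(subset_insert _ _).trans subset_union_left, c2 s hs _ (.inl rfl),
      fun d hd => ⟨lam, hl, .inr ⟨d, hd, rfl⟩⟩⟩
  · exact ⟨subset_union_left, c2 s hs _ (.inr (.inl rfl)), fun d hd => ⟨ρ, hρ, .inr ⟨d, hd, rfl⟩⟩⟩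

/-- Glueing of the new diagram. -/
theorem perf_glue {B : Set ι} {z : List ι → Q} {a : ι} {e : Bool → ι} {π : ι → ι} {s : Mv Q}
    {w : B → List (Option Bool) → Q} (he : Function.Injective e) (hB : ∀ b, e b ∉ B)
    (p1 : ∀ b, π (e b) = a) (p2 : ∀ c ∈ B, π c = c) (hs : Und s (z [], z [a]))
    (w1 : ∀ c l, s l ≤ w c (l.map some)) (w2 : ∀ c, w c [none] ≤ z [c])
    (w3 : ∀ c b, w c [none, some b] ≤ z [c, a] ∧ w c [some b, none] ≤ z [a, c]) :
    ∃ z', PerfLink z' z π ∧ (∀ l, z' (l.map e) ≤ s l) ∧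
      ∀ (c : B) l, z' (l.map fun o : Option Bool => o.elim c.1 e) ≤ w c l := by
  have inj : ∀ c : B, Function.Injective fun o : Option Bool => o.elim c.1 e := by
    rintro c (_ | x) (_ | y) h
    · rfl
    · exact (hB y ((show c.1 = e y from h) ▸ c.2)).elim
    · exact (hB x ((show e x = c.1 from h).symm ▸ c.2)).elim
    · exact congrArg _ (he h)
  have key : ∀ l : List ι, ∃ q, ((l.map π).Nodup → q ≤ z (l.map π)) ∧
      (∀ l0 : List Bool, l = l0.map e → q ≤ s l0) ∧ ∀ (c : B) (l1 : List (Option Bool)),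
        (l = l1.map fun o => o.elim c.1 e) → q ≤ w c l1 := fun l => by
    by_cases k : ∃ l0 : List Bool, l = l0.map e
    · obtain ⟨l0, rfl⟩ := k
      refine ⟨s l0, fun h => ?_, fun l1 h => (he.list_map h) ▸ le_rfl, fun c l1 h => ?_⟩
      · rcases l0 with _ | ⟨x, _ | ⟨y, l0⟩⟩
        · exact hs.1
        · simpa [p1] using hs.2 x
        · simp [p1] at h
      · have : l0.map some = l1 := (inj c).list_map (by rw [← h, List.map_map]; rfl)
        exact this ▸ w1 c l0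
    by_cases k' : ∃ (c : B) (l1 : List (Option Bool)), l = l1.map fun o => o.elim c.1 e
    · obtain ⟨c, l1, rfl⟩ := k'
      have m : none ∈ l1 := by
        by_contra m
        refine k ⟨l1.map fun o => o.getD true, ?_⟩
        rw [List.map_map]
        refine List.map_congr_left fun o ho => ?_
        cases o
        · exact (m ho).elim
        · rfl
      refine ⟨w c l1, fun h => ?_, fun l0 h => (k ⟨l0, h⟩).elim, fun c' l2 h => ?_⟩
      · have p3 := p2 c c.2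
        rcases l1 with _ | ⟨_ | x, _ | ⟨_ | y, _ | ⟨_ | u, l1⟩⟩⟩ <;>
          simp [p1, p3, w2, (w3 c _).1, (w3 c _).2] at m h ⊢
      · have m' := List.mem_map_of_mem (f := fun o : Option Bool => o.elim c.1 e) m
        rw [h] at m'
        obtain ⟨_ | x, -, e'⟩ := List.mem_map.1 m'
        · obtain rfl : c' = c := Subtype.ext e'
          exact ((inj c').list_map h) ▸ le_rfl
        · exact (hB x ((show e x = c.1 from e').symm ▸ c.2)).elim
    exact ⟨_, fun _ => le_rfl, fun l0 h => (k ⟨l0, h⟩).elim, fun c l1 h => (k' ⟨c, l1, h⟩).elim⟩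
  choose z' k1 k2 k3 using key
  exact ⟨z', k1, fun l => k2 _ l rfl, fun c l => k3 _ c l rfl⟩

/-- One leaf is split. -/
theorem perf_step (hQ : Clo Q) (hF : Col F p) (hρ : ∀ π, ρ π ∈ j) (hl : ∀ π, lam π ∈ j)
    (hmin : ∀ 𝓕' σ', 𝓕 ⊆ 𝓕' → σ' ≤ σ → Large 𝓕' σ' →
      ρ ∈ Rs F false 𝓕' σ' ∧ lam ∈ Rs F true 𝓕' σ') {A : Set ι} {z : List ι → Q}
    {G : ι → Set (Set (Mv Q))} (h : PerfInv F 𝓕 σ j A z G) (hA : A.Countable) {a a' : ι}
    (ha : a ∈ A) (ha' : a' ∉ A) : ∃ z' G' π, PerfInv F 𝓕 σ j (insert a' A) z' G' ∧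
      PerfLink z' z π ∧ (∀ c ∈ A, π c = c) ∧ π a' = a := by
  classical
  have ne : a' ≠ a := fun e => ha' (e ▸ ha)
  have : Countable (A \ {a} :) := (hA.mono sdiff_subset).to_subtype
  choose τ t1 t2 using fun c : (A \ {a} :) => h.two a ha c c.2.1 (Ne.symm c.2.2) _ le_rfl
  obtain ⟨t, u1, u2⟩ := perf_split hρ hl hmin (h.sub a ha) ⟨h.root, h.pt a ha⟩ (h.lar a ha)
    (range_subset_iff.2 t2) (countable_range _)
  obtain ⟨s, s1, s2⟩ := (hQ.pi _).meet (p := t) (D := fun (c : (A \ {a} :)) (r : Mv Q) =>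
      ∃ w : List (Option Bool) → Q, (∀ l, r l ≤ w (l.map some)) ∧ w [none] ≤ z [c] ∧
        (∀ b, w [none, some b] ≤ z [c, a] ∧ w [some b, none] ≤ z [a, c]) ∧ Frc F w (τ c))
    fun c q hq => by
      obtain ⟨w, b, f⟩ := (u2 q hq).1 _ (mem_range_self c)
      exact ⟨fun l => w (l.map some), b.1, w, fun l => le_rfl, b.2.1, b.2.2, f⟩
  choose r r1 _ w w1 w2 w3 w4 using s2
  obtain ⟨H, hH⟩ := (u2 s s1).2
  obtain ⟨e, e1, e2⟩ : ∃ e : Bool → ι, e true = a ∧ e false = a' :=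
    ⟨fun b => Bool.rec a' a b, rfl, rfl⟩
  have he : Function.Injective e := by
    rintro (_ | _) (_ | _) k <;> simp_all
  obtain ⟨π, p1, p2⟩ : ∃ π : ι → ι, (∀ c ∈ A, π c = c) ∧ π a' = a :=
    ⟨fun c => if c = a' then a else c, fun c hc => if_neg (ne_of_mem_of_not_mem hc ha'), if_pos rfl⟩
  have p3 : ∀ b, π (e b) = a := by
    rintro (_ | _)
    · rw [e2, p2]
    · rw [e1, p1 a ha]
  have hB : ∀ b, e b ∉ A \ {a} := by
    rintro (_ | _) <;> simp [e1, e2, ha']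
  obtain ⟨z', k1, k2, k3⟩ := perf_glue he hB p3 (fun c hc => p1 c hc.1) (u1.mono s1 le_rfl)
    (fun c l => (r1 c l).trans (w1 c l)) w2 w3
  have cs : ∀ x ∈ insert a' A, (∃ b, x = e b) ∨ x ∈ A \ {a} := by
    rintro x (rfl | hx)
    · exact .inl ⟨false, e2.symm⟩
    · exact (em (x = a)).imp (fun k => ⟨true, k.trans e1.symm⟩) fun k => ⟨hx, k⟩
  have pA : ∀ x ∈ insert a' A, π x ∈ A := by
    rintro x (rfl | hx)
    · exact p2 ▸ ha
    · exact (p1 x hx).symm ▸ hx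
  have pr : ∀ x ∈ insert a' A, ∀ y ∈ insert a' A, x ≠ y → π x = π y →
      ∃ b, x = e b ∧ y = e (!b) := fun x hx y hy k k' => by
    rcases cs x hx with ⟨b, rfl⟩ | h1 <;> rcases cs y hy with ⟨b', rfl⟩ | h2
    · exact ⟨b, rfl, congrArg e (Bool.eq_not_iff.2 fun k2 => k (congrArg e k2.symm))⟩
    · exact (h2.2 (by rw [p3, p1 y h2.1] at k'; exact k'.symm)).elim
    · exact (h1.2 (by rw [p3, p1 x h1.1] at k'; exact k')).elim
    · exact (k (by rwa [p1 x h1.1, p1 y h2.1] at k')).elim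
  have th : ∀ b, ∀ x ∈ insert a' A, e b ≠ x → e (!b) ≠ x → x ∈ A \ {a} := fun b x hx k k' =>
    (cs x hx).resolve_left fun ⟨b', k2⟩ => by
      subst k2
      cases b <;> cases b' <;> simp at k k'
  have sf : ∀ (c : (A \ {a} :)) (o : Od), ∃ j' ∈ j,
      F (cube z' (o.1.1.elim c.1 e) (o.1.2.1.elim c.1 e) (o.1.2.2.elim c.1 e)) j' := fun c o =>
    ⟨_, t1 c o, hF.mono _ _ _ (w4 c o) (cube_mono (k3 c) _ _ _)⟩
  obtain ⟨G', g1, g2⟩ : ∃ G' : ι → Set (Set (Mv Q)), (∀ b, G' (e b) = H b) ∧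
      ∀ x ∈ A \ {a}, G' x = G x := ⟨Function.extend e H G, fun b => he.extend_apply _ _ _,
    fun x hx => Function.extend_apply' _ _ _ fun ⟨b, k⟩ => hB b (k ▸ hx)⟩
  have g3 : ∀ x ∈ insert a' A, G (π x) ⊆ G' x := fun x hx => by
    rcases cs x hx with ⟨b, rfl⟩ | k
    · rw [p3, g1]
      exact (hH b).1
    · rw [p1 x k.1, g2 x k]
  have l0 : z' [] ≤ z [] := k1 [] List.nodup_nil
  have l1 : ∀ x, z' [x] ≤ z [π x] := fun x => k1 [x] (List.nodup_singleton _)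
  refine ⟨z', G', π, ⟨l0.trans h.root, fun x hx => (h.sub _ (pA x hx)).trans (g3 x hx),
    fun x hx => (l1 x).trans (h.pt _ (pA x hx)), fun x hx => ?_, fun x hx y hy k d hd => ?_,
    fun x hx y hy u hu n1 n2 n3 => ?_⟩, k1, p1, p2⟩
  · rcases cs x hx with ⟨b, rfl⟩ | k
    · exact (hH b).2.1.mono (g1 b).le ⟨k2 [], k2 [b]⟩
    · exact (h.lar x k.1).mono (g2 x k).le ⟨l0, (l1 x).trans_eq (by rw [p1 x k.1])⟩
  · by_cases k' : π x = π y
    · obtain ⟨b, rfl, rfl⟩ := pr x hx y hy k k'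
      rw [g1]
      refine (hH b).2.2 d (hd.trans ?_)
      rw [dat, Bool.not_not]
      exact ⟨k2 [!b], k2 [!b, b], k2 [b, !b]⟩
    · exact (h.two _ (pA x hx) _ (pA y hy) k' d (hd.trans ⟨l1 y, k1 [y, x] (by simp [Ne.symm k']),
        k1 [x, y] (by simp [k'])⟩)).imp fun τ g => ⟨g.1, g3 x hx g.2⟩
  · by_cases m1 : π x = π y
    · obtain ⟨b, rfl, rfl⟩ := pr x hx y hy n1 m1
      exact sf ⟨u, th b u hu n2 n3⟩ ⟨(some b, some !b, none), by cases b <;> decide⟩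
    by_cases m2 : π x = π u
    · obtain ⟨b, rfl, rfl⟩ := pr x hx u hu n2 m2
      exact sf ⟨y, th b y hy n1 n3.symm⟩ ⟨(some b, none, some !b), by cases b <;> decide⟩
    by_cases m3 : π y = π u
    · obtain ⟨b, rfl, rfl⟩ := pr y hy u hu n3 m3
      exact sf ⟨x, th b x hx n1.symm n2.symm⟩ (inc b)
    obtain ⟨j', n, f⟩ := h.tri _ (pA x hx) _ (pA y hy) _ (pA u hu) m1 m2 m3
    exact ⟨j', n, hF.mono _ _ _ f (perf_cube k1 m1 m2 m3)⟩

/-- All leaves of a finite set are split. -/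
theorem perf_level (hQ : Clo Q) (hF : Col F p) (hρ : ∀ π, ρ π ∈ j) (hl : ∀ π, lam π ∈ j)
    (hmin : ∀ 𝓕' σ', 𝓕 ⊆ 𝓕' → σ' ≤ σ → Large 𝓕' σ' →
      ρ ∈ Rs F false 𝓕' σ' ∧ lam ∈ Rs F true 𝓕' σ') {A : Set ι} {z : List ι → Q}
    {G : ι → Set (Set (Mv Q))} (h : PerfInv F 𝓕 σ j A z G) (hA : A.Countable) {up : ι → ι}
    (h1 : Function.Injective up) (h2 : ∀ a, up a ∉ A) {S : Set ι} (hS : S.Finite) (h3 : S ⊆ A) :
    ∃ z' G' π, PerfInv F 𝓕 σ j (A ∪ up '' S) z' G' ∧ PerfLink z' z π ∧ (∀ c ∈ A, π c = c) ∧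
      ∀ a ∈ S, π (up a) = a := by
  induction S, hS using Set.Finite.induction_on with
  | empty => exact ⟨z, G, id, by simpa using h, fun l _ => by simp, fun _ _ => rfl, by simp⟩
  | @insert a S ha hS ih =>
    obtain ⟨z1, G1, π1, a1, a2, a3, a4⟩ := ih ((subset_insert _ _).trans h3)
    have m := h3 (mem_insert _ _)
    obtain ⟨z2, G2, π2, b1, b2, b3, b4⟩ := perf_step hQ hF hρ hl hmin a1
      (hA.union (hS.image _).countable) (a := a) (a' := up a) (.inl m) (by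
        rintro (k | ⟨c, hc, k⟩)
        · exact h2 a k
        · exact ha (h1 k ▸ hc))
    refine ⟨z2, G2, π1 ∘ π2, by rwa [image_insert_eq, union_insert], fun l k => ?_,
      fun c hc => (congrArg π1 (b3 c (.inl hc))).trans (a3 c hc), ?_⟩
    · rw [← List.map_map] at k ⊢
      exact (b2 l (k.of_map _)).trans (a2 _ k)
    · rintro c (rfl | hc)
      · exact (congrArg π1 b4).trans (a3 c m)
      · exact (congrArg π1 (b3 _ (.inr ⟨c, hc, rfl⟩))).trans (a4 c hc)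

/-- The leaf of a branch at level `m`. -/
def perfTr (x : ℕ → Bool) : ℕ → List ℕ
  | 0 => []
  | m + 1 => if x m then m :: perfTr x m else perfTr x m

/-- The leaves at level `m`. -/
def perfLv : ℕ → Set (List ℕ)
  | 0 => {[]}
  | m + 1 => perfLv m ∪ List.cons m '' perfLv m

theorem perf_fin : ∀ m, (perfLv m).Finite
  | 0 => finite_singleton _
  | m + 1 => (perf_fin m).union ((perf_fin m).image _)

theorem perf_lt : ∀ m, ∀ l ∈ perfLv m, ∀ i ∈ l, i < m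
  | 0 => by simp [perfLv]
  | m + 1 => by
    rintro l (h | ⟨l, h, rfl⟩) i hi
    · exact (perf_lt m l h i hi).trans m.lt_succ_self
    · rcases List.mem_cons.1 hi with rfl | hi
      · exact i.lt_succ_self
      · exact (perf_lt m l h i hi).trans m.lt_succ_self

theorem perf_new (m : ℕ) (l : List ℕ) : m :: l ∉ perfLv m := fun h =>
  (perf_lt m _ h m List.mem_cons_self).false

theorem perf_mem (x : ℕ → Bool) : ∀ m, perfTr x m ∈ perfLv m
  | 0 => rfl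
  | m + 1 => by
    unfold perfTr
    split_ifs
    · exact .inr ⟨_, perf_mem x m, rfl⟩
    · exact .inl (perf_mem x m)

variable [OrderTop Q]

theorem perfect (hQ : Clo Q) (hF : Col F p) {𝓕 : Set (Set (Mv Q))} {σ : Q × Q} (hL : Large 𝓕 σ)
    {ρ lam : Od → K} {j : Set K} (hρ : ∀ π, ρ π ∈ j) (hl : ∀ π, lam π ∈ j)
    (hmin : ∀ 𝓕' σ', 𝓕 ⊆ 𝓕' → σ' ≤ σ → Large 𝓕' σ' →
      ρ ∈ Rs F false 𝓕' σ' ∧ lam ∈ Rs F true 𝓕' σ') :
    ∃ z : List (ℕ → Bool) → Q, z [] ≤ σ.1 ∧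
      ∀ a b c, a ≠ b → a ≠ c → b ≠ c → ∃ j' ∈ j, F (cube z a b c) j' := by
  classical
  choose z' G' π k1 k2 k3 k4 using fun m (s : {s : (List (List ℕ) → Q) × _ //
      PerfInv F 𝓕 σ j (perfLv m) s.1 s.2}) => perf_level hQ hF hρ hl hmin s.2
    (perf_fin m).countable (List.cons_injective (a := m)) (perf_new m) (perf_fin m) subset_rfl
  let s : ∀ m, {s : (List (List ℕ) → Q) × _ // PerfInv F 𝓕 σ j (perfLv m) s.1 s.2} := fun m =>
    Nat.rec ⟨(fun l => if l = [] then σ.1 else σ.2, fun _ => 𝓕), le_rfl, fun _ _ => subset_rfl,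
      fun _ _ => le_rfl, fun _ _ => hL, fun a ha c hc k => (k (ha.trans hc.symm)).elim,
      fun a ha c hc _ _ k => (k (ha.trans hc.symm)).elim⟩
      (fun m t => ⟨(z' m t, G' m t), k1 m t⟩) m
  have e : ∀ m x, π m (s m) (perfTr x (m + 1)) = perfTr x m := fun m x => by
    rw [perfTr]
    split_ifs
    · exact k4 _ _ _ (perf_mem x m)
    · exact k3 _ _ _ (perf_mem x m)
  choose z hz using fun l : List (ℕ → Bool) => hQ (fun m =>
    if (l.map (perfTr · m)).Nodup then (s m).1.1 (l.map (perfTr · m)) else ⊤)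
    (antitone_nat_of_succ_le fun m => by
      have e' : l.map (perfTr · m) = (l.map (perfTr · (m + 1))).map (π m (s m)) := by
        rw [List.map_map]
        exact List.map_congr_left fun x _ => (e m x).symm
      by_cases k : (l.map (perfTr · m)).Nodup
      · rw [if_pos k]
        rw [e'] at k ⊢
        rw [if_pos (k.of_map _)]
        exact k2 m (s m) _ k
      · rw [if_neg k]
        exact le_top)
  have lk : ∀ m, PerfLink z (s m).1.1 (perfTr · m) := fun m l k => (hz l m).trans_eq (if_pos k)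
  have sp : ∀ x y, x ≠ y → ∀ᶠ m in Filter.atTop, perfTr x m ≠ perfTr y m := fun x y k => by
    obtain ⟨i, hi⟩ := Function.ne_iff.1 k
    refine Filter.eventually_atTop.2 ⟨i + 1, fun m hm => ?_⟩
    induction hm with
    | refl =>
      have h1 := perf_mem x i
      have h2 := perf_mem y i
      intro g
      cases hx : x i <;> cases hy : y i <;> simp [perfTr, hx, hy] at hi g
      · exact perf_new _ _ (g ▸ h1)
      · exact perf_new _ _ (g ▸ h2)
    | step _ ih => exact fun g => ih (by rw [← e, ← e _ y]; exact congrArg _ g)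
  refine ⟨z, (lk 0 [] List.nodup_nil).trans (s 0).2.root, fun a b c n1 n2 n3 => ?_⟩
  obtain ⟨m, m1, m2, m3⟩ := ((sp a b n1).and ((sp a c n2).and (sp b c n3))).exists
  obtain ⟨j', n, f⟩ := (s m).2.tri _ (perf_mem a m) _ (perf_mem b m) _ (perf_mem c m) m1 m2 m3
  exact ⟨j', n, hF.mono _ _ _ f (perf_cube (lk m) m1 m2 m3)⟩

end Pool.Agent.Lib.MP_f42089_lc
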