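import Pool.Agent.Lib.MP_f42089_lc.Comb
import Pool.Agent.Lib.MP_f42089_lc.Perf
import Pool.Agent.Lib.MP_f42089_lc.Count

/-! Minimal large pairs, the count of colours, and the existence of a system. -/

namespace Pool.Agent.Lib.MP_f42089_lc

open Set Cardinal

variable {Q K : Type} [Preorder Q] [OrderTop Q] {F : (Fin 8 → Q) → K → Prop} {p : Q}

omit [OrderTop Q] in
theorem cnt_large {𝓕 𝓕' : Set (Set (Mv Q))} {σ : Q × Q} (h : Large 𝓕 σ)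
    (h1 : ∀ D ∈ 𝓕', ∃ D' ∈ 𝓕, D' ⊆ D) : Large 𝓕' σ := fun 𝒞 a b τ c => by
  choose! g g1 g2 using h1
  obtain ⟨t, h2, h3⟩ := h (g '' 𝒞) (by rintro _ ⟨D, hD, rfl⟩; exact g1 D (a hD)) (b.image g) τ c
  exact ⟨t, h2, fun t' ht D hD => g2 D (a hD) (h3 t' ht _ ⟨D, hD, rfl⟩)⟩

omit [OrderTop Q] in
theorem cnt_anti {𝓕 𝓕' : Set (Set (Mv Q))} {σ σ' : Q × Q} (h : 𝓕 ⊆ 𝓕') (h' : σ' ≤ σ) (b : Bool) :
    Rs F b 𝓕' σ' ⊆ Rs F b 𝓕 σ := fun ρ ⟨τ, h1, h2⟩ => by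
  refine ⟨τ, h1.trans h', cnt_large h2 ?_⟩
  rintro D (rfl | hD)
  · exact ⟨_, mem_insert _ _, fun s hs => Large.mono hs (ext_mono h le_rfl ρ) le_rfl⟩
  · exact ⟨D, mem_insert_of_mem _ (h hD), subset_rfl⟩

theorem exists_min [Finite K] (F : (Fin 8 → Q) → K → Prop) (p : Q) :
    ∃ (𝓕 : Set (Set (Mv Q))) (σ : Q × Q), σ.1 ≤ p ∧ Large 𝓕 σ ∧
      ∀ 𝓕' σ', 𝓕 ⊆ 𝓕' → σ' ≤ σ → Large 𝓕' σ' → ∀ b, Rs F b 𝓕 σ ⊆ Rs F b 𝓕' σ' := by
  classical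
  let S : Set (Set (Mv Q)) → Q × Q → Set (Bool × (Od → K)) :=
    fun 𝓕 σ => {x | x.2 ∈ Rs F x.1 𝓕 σ}
  have hex : ∃ n, ∃ (𝓕 : Set (Set (Mv Q))) (σ : Q × Q), σ.1 ≤ p ∧ Large 𝓕 σ ∧
      (S 𝓕 σ).ncard = n :=
    ⟨_, ∅, (p, ⊤), le_rfl, fun 𝒞 a _ τ _ => ⟨fun l => if l = [] then τ.1 else τ.2,
      ⟨by simp, fun b => by simp⟩, fun _ _ D hD => (a hD).elim⟩, rfl⟩
  obtain ⟨𝓕, σ, h1, h2, h3⟩ := Nat.find_spec hex
  refine ⟨𝓕, σ, h1, h2, fun 𝓕' σ' a1 a2 a3 b ρ hρ => ?_⟩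
  have h4 : (S 𝓕 σ).ncard ≤ (S 𝓕' σ').ncard :=
    h3.trans_le (Nat.find_min' hex ⟨𝓕', σ', a2.1.trans h1, a3, rfl⟩)
  have h5 : S 𝓕' σ' = S 𝓕 σ :=
    eq_of_subset_of_ncard_le (fun x hx => cnt_anti a1 a2 x.1 hx) h4 (toFinite _)
  have h6 : (b, ρ) ∈ S 𝓕' σ' := by rw [h5]; exact hρ
  exact h6

theorem cnt_card [DecidableEq K] (ρ : Od → K) : (Finset.univ.image ρ).card ≤ 6 :=
  Finset.card_image_le.trans (by decide)

theorem cnt_emb : ∃ e : O1 → ℕ → Bool, Function.Injective e := by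
  have h : #O1 ≤ #(ℕ → Bool) := by simpa using aleph_one_le_continuum
  obtain ⟨e⟩ := h
  exact ⟨e, e.injective⟩

theorem sys_of_perfect (hF : Col F p) {z : List (ℕ → Bool) → Q} {j : Set K}
    (h : ∀ a b c, a ≠ b → a ≠ c → b ≠ c → ∃ j' ∈ j, F (cube z a b c) j') : Sys F (z []) j := by
  classical
  obtain ⟨e, he⟩ := cnt_emb
  refine ⟨O1, fun a x => ∀ l : List O1, (∀ b ∈ l, b < a) → x (l ++ [a]) ≤ z ((l ++ [a]).map e),
    id, (· < ·), fun a x x' h1 h2 l hl => (h2 _).trans (h1 l hl), fun _ _ h1 => h1,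
    fun a b c x hab hac hbc h0 ha hb hc => ?_, fun C hC _ x ⟨β₀, hx⟩ _ _ β => ?_⟩
  · obtain ⟨j', h1, h2⟩ := h (e a) (e b) (e c) (he.ne hab.ne) (he.ne hac.ne) (he.ne hbc.ne)
    refine ⟨j', h1, hF.mono _ _ _ h2 fun m => ?_⟩
    fin_cases m
    · exact h0
    · exact ha [] (by simp)
    · exact hb [] (by simp)
    · exact hc [] (by simp)
    · exact hb [a] (by simpa using hab)
    · exact hc [a] (by simpa using hac)
    · exact hc [b] (by simpa using hbc)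
    · exact hc [a, b] (by simpa using ⟨hac, hbc⟩)
  · obtain ⟨a, ha⟩ := O1.bdd ((hC.insert β₀).insert β)
    obtain ⟨a', ha'⟩ := O1.bdd (countable_singleton a)
    have h1 : β₀ < a := ha _ (by simp)
    have h2 : a < a' := ha' _ rfl
    refine ⟨fun l => if a ∈ l ∧ ∀ b ∈ l, b ≤ a then z (l.map e) else x l, fun l => ?_,
      ⟨a', fun l ⟨b, hb, hb'⟩ => ?_⟩, a, fun l hl => ?_, ha _ (by simp),
      fun b hb => ha _ (by simp [hb])⟩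
    · dsimp only
      split_ifs with c
      · rw [hx l ⟨a, c.1, h1.le⟩]; exact le_top
      · exact le_rfl
    · dsimp only
      rw [if_neg fun c => (c.2 b hb).not_gt (h2.trans_le hb')]
      exact hx l ⟨b, hb, (h1.trans (h2.trans_le hb')).le⟩
    · dsimp only
      rw [if_pos ⟨by simp, fun b hb => (List.mem_append.1 hb).elim (fun c => (hl b c).le)
        fun c => (List.mem_singleton.1 c).le⟩]

/-- from comb, perfect, exists_min, count', sys_of_perfect -/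
theorem exists_sys [Fintype K] (hQ : Clo Q) (hF : Col F p) :
    ∃ r ≤ p, ∃ S : Finset K, S.card ≤ bnd (Fintype.card K) ∧ Sys F r S := by
  classical
  obtain ⟨𝓕, σ, h1, h2, h3⟩ := exists_min F p
  let J : Bool → Finset K := fun b => Finset.univ.filter fun j => ∃ ρ ∈ Rs F b 𝓕 σ, ρ (inc b) = j
  by_cases hc : ∃ b, (J b).card ≤ bnd (Fintype.card K)
  · obtain ⟨b, h⟩ := hc
    exact ⟨σ.1, h1, J b, h, comb hQ hF h2 h1 b _ fun ρ hρ =>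
      Finset.mem_filter.2 ⟨Finset.mem_univ _, ρ, hρ, rfl⟩⟩
  · have h4 : ∀ b, bnd (Fintype.card K) < (J b).card := fun b => not_le.1 fun h => hc ⟨b, h⟩
    have h5 : ∀ b, ∀ x ∈ J b, ∃ ρ : Rs F b 𝓕 σ, x ∈ Finset.univ.image ρ.1 := fun b x hx =>
      let ⟨ρ, a, e⟩ := (Finset.mem_filter.1 hx).2
      ⟨⟨ρ, a⟩, Finset.mem_image.2 ⟨_, Finset.mem_univ _, e⟩⟩
    obtain ⟨ρ, lam, a⟩ := count' _ _ (fun _ => cnt_card _) (fun _ => cnt_card _) (h4 false)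
      (h4 true) (h5 false) (h5 true)
    obtain ⟨z, b1, b2⟩ := perfect hQ hF h2 (ρ := ρ.1) (lam := lam.1)
      (j := ↑(Finset.univ.image ρ.1 ∪ Finset.univ.image lam.1)) (fun π => by simp)
      (fun π => by simp) fun 𝓕' σ' c1 c2 c3 =>
        ⟨h3 𝓕' σ' c1 c2 c3 false ρ.2, h3 𝓕' σ' c1 c2 c3 true lam.2⟩
    exact ⟨z [], b1.trans h1, _, a, sys_of_perfect hF b2⟩

end Pool.Agent.Lib.MP_f42089_lc
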