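import Pool.Agent.Lib.MP_f42089_lc.Defs

/-! The comb of uncountable length. -/

namespace Pool.Agent.Lib.MP_f42089_lc

open Set

variable {Q K : Type} [Preorder Q] {F : (Fin 8 → Q) → K → Prop} {p : Q}

theorem upd {Z : Type} {z : List Z → Q} {a b c : Z} (h1 : a ≠ b) (h2 : a ≠ c) (h3 : b ≠ c)
    {u : Fin 8 → Q} (hu : u ≤ cube z a b c) : ∃ z' ≤ z, cube z' a b c = u := by
  classical
  have hi : Function.Injective fun m => (lst m).map ![a, b, c] := fun m m' => by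
    fin_cases m <;> fin_cases m' <;> simp [lst, h1, h2, h3, h1.symm, h2.symm, h3.symm]
  refine ⟨Function.extend (fun m => (lst m).map ![a, b, c]) u z, fun l => ?_, funext fun m => ?_⟩
  · by_cases h : ∃ m, (lst m).map ![a, b, c] = l
    · obtain ⟨m, rfl⟩ := h
      rw [hi.extend_apply]
      exact (hu m).trans_eq (cube_eq _ _ _ _ m)
    · rw [Function.extend_apply' _ _ _ h]
  · rw [cube_eq, hi.extend_apply]

theorem full [OrderTop Q] (hF : Col F p) {t : Mv Q} (ht : t [] ≤ p) (d : Q × Q × Q) :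
    ∃ z ρ, Below z t d ∧ Frc F z ρ := by
  classical
  let z₀ : List (Option Bool) → Q := fun l => match l with
    | [none] => d.1
    | [none, some _] => d.2.1
    | [some _, none] => d.2.2
    | l => t (l.filterMap id)
  have h0 : Below z₀ t d := by
    refine ⟨fun l => ?_, le_rfl, fun b => ⟨le_rfl, le_rfl⟩⟩
    rcases l with _ | ⟨a, _ | ⟨b, _ | ⟨c, l⟩⟩⟩ <;> simp [z₀, List.filterMap_map]
  have h1 : ∀ S : Finset Od, ∃ z ≤ z₀, ∀ π ∈ S, ∃ j, F (cube z π.1.1 π.1.2.1 π.1.2.2) j := by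
    intro S
    induction S using Finset.induction_on with
    | empty => exact ⟨z₀, le_rfl, by simp⟩
    | insert π S _ ih =>
      obtain ⟨z, a1, a2⟩ := ih
      obtain ⟨u, b1, j, b2⟩ := hF.dense (cube z π.1.1 π.1.2.1 π.1.2.2) ((a1 []).trans ht)
      obtain ⟨z', c1, rfl⟩ := upd π.2.1 π.2.2.1 π.2.2.2 b1
      refine ⟨z', c1.trans a1, Finset.forall_mem_insert _ _ _ |>.2 ⟨⟨j, b2⟩, fun π' h => ?_⟩⟩
      exact (a2 π' h).imp fun j' h' => hF.mono _ _ _ h' (cube_mono c1 _ _ _)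
  obtain ⟨z, a1, a2⟩ := h1 Finset.univ
  choose ρ hρ using a2
  exact ⟨z, fun π => ρ π (Finset.mem_univ _), h0.mono a1 le_rfl le_rfl, fun π => hρ π _⟩

/-- Below a smaller state, moves inside countably many members have the property `Φ`. -/
def Aft (𝓕 : Set (Set (Mv Q))) (r : Q × Q) (Φ : Mv Q → Prop) : Prop :=
  ∃ 𝒞 ⊆ 𝓕, 𝒞.Countable ∧ ∀ t, Und t r → (∀ t' ≤ t, ∀ D ∈ 𝒞, t' ∈ D) → Φ t

theorem gather (hQ : Clo Q) {𝓕 : Set (Set (Mv Q))} {σ : Q × Q} {ι : Type} [Countable ι]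
    {Φ : ι → Mv Q → Prop} (h : ∀ i, ∀ σ' ≤ σ, ∃ r ≤ σ', Aft 𝓕 r (Φ i)) :
    ∃ r ≤ σ, Aft 𝓕 r fun t => ∀ i, Φ i t := by
  obtain ⟨r, a1, a2⟩ := (hQ.prod hQ).meet h
  choose r' b1 _ 𝒞 b2 b3 b4 using a2
  exact ⟨r, a1, ⋃ i, 𝒞 i, iUnion_subset b2, countable_iUnion b3, fun t c1 c2 i =>
    b4 i t (c1.mono le_rfl (b1 i)) fun t' c3 D c4 => c2 t' c3 D (mem_iUnion.2 ⟨i, c4⟩)⟩

theorem block (hQ : Clo Q) {𝓕 : Set (Set (Mv Q))} {σ : Q × Q} {d : Q × Q × Q}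
    (S : Finset (Od → K)) (h : ∀ ρ ∈ S, ∀ d' ≤ d, ∀ σ' ≤ σ, ¬ Large (Ext F 𝓕 d' ρ) σ') :
    ∀ d' ≤ d, ∀ σ' ≤ σ, ∃ r ≤ σ', Aft 𝓕 r fun t =>
      ∃ t' ≤ t, ∃ d'' ≤ d', ∀ ρ ∈ S, t' ∉ Ach F d'' ρ := by
  classical
  induction S using Finset.induction_on with
  | empty => exact fun d' _ σ' _ => ⟨σ', le_rfl, ∅, empty_subset _, countable_empty,
      fun t _ _ => ⟨t, le_rfl, d', le_rfl, by simp⟩⟩
  | insert ρ S _ ih =>
    intro d' hd σ' hσ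
    have h1 := h ρ (Finset.mem_insert_self _ _) d' hd σ' hσ
    simp only [Large, not_forall, not_exists, not_and] at h1
    obtain ⟨𝒞, a1, a2, σ₁, a3, a4⟩ := h1
    have : Countable {D // D ∈ 𝒞 ∧ D ∉ 𝓕} := (a2.mono fun _ h => h.1).to_subtype
    choose e e1 e2 using fun D : {D // D ∈ 𝒞 ∧ D ∉ 𝓕} => (a1 D.2.1).resolve_left D.2.2
    obtain ⟨r, b1, 𝒞', b2, b3, b4⟩ := gather hQ (σ := σ₁) fun D τ hτ =>
      ih (fun ρ' h' => h ρ' (Finset.mem_insert_of_mem h')) (e D) ((e1 D).trans hd) τ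
        (hτ.trans (a3.trans hσ))
    refine ⟨r, b1.trans a3, 𝒞 ∩ 𝓕 ∪ 𝒞', union_subset inter_subset_right b2,
      (a2.mono inter_subset_left).union b3, fun t c1 c2 => ?_⟩
    obtain ⟨t₁, c3, D, c4, c5⟩ := a4 t (c1.mono le_rfl b1)
    have c6 : D ∉ 𝓕 := fun h => c5 (c2 _ c3 D (.inl ⟨c4, h⟩))
    obtain ⟨t₂, f1, d₂, f2, f3⟩ := b4 t₁ (c1.mono c3 le_rfl)
      (fun t' h D h' => c2 t' (h.trans c3) D (.inr h')) ⟨D, c4, c6⟩
    refine ⟨t₂, f1.trans c3, d₂, f2.trans (e1 _), Finset.forall_mem_insert _ _ _ |>.2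
      ⟨fun ⟨z, g1, g2⟩ => c5 ?_, f3⟩⟩
    exact (e2 ⟨D, c4, c6⟩).ge ⟨z, g1.mono le_rfl f1 f2, g2⟩

theorem not_gd {𝓕 : Set (Set (Mv Q))} {σ : Q × Q} {b : Bool} {ρ : Od → K}
    (h : ρ ∉ Rs F b 𝓕 σ) : ∀ σ' ≤ σ, ∃ r ≤ σ', Aft 𝓕 r fun t => t ∉ Gd F b ρ 𝓕 := by
  intro σ' hσ
  have h1 : ¬ Large (insert (Gd F b ρ 𝓕) 𝓕) σ' := fun h' => h ⟨σ', hσ, h'⟩
  simp only [Large, not_forall, not_exists, not_and] at h1
  obtain ⟨𝒞, a1, a2, r, a3, a4⟩ := h1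
  refine ⟨r, a3, 𝒞 ∩ 𝓕, inter_subset_right, a2.mono inter_subset_left, fun t c1 c2 c => ?_⟩
  obtain ⟨t₁, c3, D, c4, c5⟩ := a4 t c1
  rcases a1 c4 with rfl | h'
  exacts [c5 (gd_mono c c3), c5 (c2 _ c3 D ⟨c4, h'⟩)]

theorem exists_mv {t : Mv Q} {b : Bool} {d : Q × Q × Q} {σ : Q × Q} (h1 : d ≤ dat b t)
    (h2 : σ ≤ nxt b t) : ∃ s ≤ t, dat b s = d ∧ nxt b s = σ := by
  refine ⟨fun l => if l = [] then σ.1 else if l = [b] then d.1 else if l = [!b] then σ.2 else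
    if l = [b, !b] then d.2.1 else if l = [!b, b] then d.2.2 else t l, fun l => ?_, ?_, ?_⟩
  · dsimp only
    split_ifs with a a a a a <;> try subst a
    exacts [h2.1, h1.1, h2.2, h1.2.1, h1.2.2, le_rfl]
  · cases b <;> simp [dat]
  · cases b <;> simp [nxt]

/-- One step: a move that keeps to the allowed colours with countably many earlier points. -/
theorem step [OrderTop Q] [Fintype K] (hQ : Clo Q) (hF : Col F p) {𝓕 : Set (Set (Mv Q))} {σ : Q × Q}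
    (hL : Large 𝓕 σ) (hσ : σ.1 ≤ p) {b : Bool} {j : Set K}
    (h : ∀ ρ ∈ Rs F b 𝓕 σ, ρ (inc b) ∈ j) {ι : Type} [Countable ι] {σ₁ : Q × Q} (h1 : σ₁ ≤ σ)
    {d : ι → Q × Q × Q} (hd : ∀ i ρ, ρ (inc b) ∉ j → ∀ d' ≤ d i, ∀ σ' ≤ σ₁,
      ¬ Large (Ext F 𝓕 d' ρ) σ') :
    ∃ t, Und t σ₁ ∧ (∀ ρ, ρ (inc b) ∉ j → ∀ d' ≤ dat b t, ∀ σ' ≤ nxt b t,
      ¬ Large (Ext F 𝓕 d' ρ) σ') ∧ ∀ i, ∃ z : List (Option Bool) → Q,
        (∀ l, t l ≤ z (l.map some)) ∧ z [none] ≤ (d i).1 ∧ (∀ b', z [none, some b'] ≤ (d i).2.1) ∧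
          ∃ j' ∈ j, F (cube z none (some b) (some !b)) j' := by
  classical
  obtain ⟨r, a1, 𝒞, a2, a3, a4⟩ := gather hQ (𝓕 := 𝓕) (σ := σ₁)
    (ι := ι ⊕ {ρ : Od → K // ρ (inc b) ∉ j}) (Φ := Sum.elim
      (fun i t => ∃ t' ≤ t, ∃ d'' ≤ d i, ∀ ρ ∈ Finset.univ.filter fun ρ => ρ (inc b) ∉ j,
        t' ∉ Ach F d'' ρ) fun ρ t => t ∉ Gd F b ρ.1 𝓕) (by
      rintro (i | ρ) σ' hσ'
      · exact block hQ _ (fun ρ hρ => hd i ρ (Finset.mem_filter.1 hρ).2) _ le_rfl σ' hσ'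
      · exact not_gd (fun h' => ρ.2 (h _ h')) σ' (hσ'.trans h1))
  obtain ⟨t₀, b1, b2⟩ := hL 𝒞 a2 a3 r (a1.trans h1)
  have k := fun t (ht : t ≤ t₀) => a4 t (b1.mono ht le_rfl) fun t' h' => b2 t' (h'.trans ht)
  obtain ⟨t, c1, c2⟩ := (hQ.pi _).meet (p := t₀) (D := fun i r => ∃ z : List (Option Bool) → Q,
    (∀ l, r l ≤ z (l.map some)) ∧ z [none] ≤ (d i).1 ∧ (∀ b', z [none, some b'] ≤ (d i).2.1) ∧
      ∃ j' ∈ j, F (cube z none (some b) (some !b)) j') fun i q hq => by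
    obtain ⟨t', e1, d'', e2, e3⟩ := k q hq (.inl i)
    obtain ⟨z, ρ, f1, f2⟩ := full hF (t := t')
      (((e1.trans hq) []).trans (b1.1.trans ((a1.trans h1).1.trans hσ))) d''
    exact ⟨fun l => z (l.map some), fun l => (f1.1 l).trans (e1 l), z, fun _ => le_rfl,
      f1.2.1.trans e2.1, fun b' => (f1.2.2 b').1.trans e2.2.1, ρ (inc b),
      by_contra fun e => e3 ρ (by simpa using e) ⟨z, f1, f2⟩, f2 (inc b)⟩
  refine ⟨t, b1.mono c1 a1, fun ρ hρ d' e1 σ' e2 e3 => ?_, fun i => ?_⟩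
  · obtain ⟨s, f1, rfl, rfl⟩ := exists_mv e1 e2
    exact k s (f1.trans c1) (.inr ⟨ρ, hρ⟩) e3
  · obtain ⟨r, e1, -, z, e2, e3⟩ := c2 i
    exact ⟨z, fun l => (e1 l).trans (e2 l), e3⟩

theorem comb [OrderTop Q] [Fintype K] (hQ : Clo Q) (hF : Col F p) {𝓕 : Set (Set (Mv Q))} {σ : Q × Q}
    (hL : Large 𝓕 σ) (hσ : σ.1 ≤ p) (b : Bool) (j : Set K)
    (h : ∀ ρ ∈ Rs F b 𝓕 σ, ρ (inc b) ∈ j) : Sys F σ.1 j := by
  classical
  refine ⟨{w : O1 × (List O1 → Q) × (List O1 → Q) × Q // w.2.2.1 [] ≤ σ.2 ∧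
      (∀ l, (∃ a ∈ l, w.1 < a) → w.2.2.1 l = ⊤) ∧ ∀ ρ, ρ (inc b) ∉ j →
        ∀ d' ≤ (w.2.1 [w.1], w.2.2.1 [w.1], w.2.2.2), ∀ σ' ≤ (w.2.1 [], w.2.2.1 []),
          ¬ Large (Ext F 𝓕 d' ρ) σ'}, fun w x => x ≤ w.1.2.1, fun w => w.1.1,
    fun w w' => w.1.1 < w'.1.1 ∧ w'.1.2.2.1 ≤ w.1.2.2.1 ∧
      (∀ l, (∀ a ∈ l, a ≤ w.1.1) → w'.1.2.1 (l ++ [w'.1.1]) ≤ w.1.2.2.1 l) ∧
      ∃ j' ∈ j, F ![w'.1.2.1 [], w'.1.2.1 [w.1.1], w'.1.2.1 [w'.1.1], w'.1.2.2.1 [],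
        w'.1.2.1 [w.1.1, w'.1.1], w'.1.2.2.1 [w.1.1], w'.1.2.2.1 [w'.1.1],
        w'.1.2.2.1 [w.1.1, w'.1.1]] j', fun _ _ _ h h' => h'.trans h, fun _ _ h => h.1, ?_, ?_⟩
  · rintro w₁ w₂ w₃ x ⟨a1, -, -, j', a2, a3⟩ - ⟨-, -, a4, -⟩ - - a5 a6
    refine ⟨j', a2, hF.mono _ _ _ a3 fun m => ?_⟩
    fin_cases m
    exacts [a5 _, a5 _, a5 _, (a6 _).trans (a4 [] (by simp)), a5 _,
      (a6 _).trans (a4 [_] (by simp [a1.le])), (a6 _).trans (a4 [_] (by simp)),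
      (a6 _).trans (a4 [_, _] (by simp [a1.le]))]
  rintro C hC hP x ⟨β₀, hβ⟩ hx hact β
  have := hC.to_subtype
  obtain ⟨v, hv⟩ := (hQ.pi (List O1)).chain (ι := Option C)
    (fun o => o.elim (fun l => if l = [] then σ.2 else ⊤) fun w => w.1.1.2.2.1) (by
      have k : ∀ w : C, w.1.1.2.2.1 ≤ fun l => if l = [] then σ.2 else ⊤ := fun w l => by
        dsimp only
        split_ifs with e
        exacts [e ▸ w.1.2.1, le_top]
      rintro (_ | w) (_ | w')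
      exacts [.inl le_rfl, .inr (k w'), .inl (k w), (eq_or_ne w w').elim (fun e => .inl (e ▸ le_rfl))
        fun e => (hP w.2 w'.2 (Subtype.coe_ne_coe.2 e)).symm.imp (·.2.1) (·.2.1)])
  have hv0 : v [] ≤ σ.2 := by simpa using hv none []
  obtain ⟨γ, hγ⟩ := O1.bdd (((hC.image fun w => w.1.1).insert β).insert β₀)
  have g0 : β₀ < γ := hγ _ (.inl rfl)
  have g1 : ∀ w ∈ C, w.1.1 < γ := fun w hw => hγ _ (.inr (.inr ⟨w, hw, rfl⟩))
  obtain ⟨γ', hγ'⟩ := O1.bdd (countable_singleton γ)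
  obtain ⟨t, t1, t2, t3⟩ := step hQ hF hL hσ h (ι := C) (σ₁ := (x [], v []))
    ⟨hx, hv0⟩
    (d := fun w => (x [w.1.1.1], v [w.1.1.1], w.1.1.2.2.2)) fun w ρ hρ d' e1 σ' e2 =>
      w.1.2.2.2 ρ hρ d' (e1.trans ⟨hact _ w.2 _, hv (some w) _, le_rfl⟩) σ'
        (e2.trans ⟨hact _ w.2 _, hv (some w) _⟩)
  choose z z1 z2 z3 z4 using t3
  have hi : Function.Injective fun w : C => w.1.1.1 := fun w w' e => by_contra fun e' =>
    (hP w.2 w'.2 (Subtype.coe_ne_coe.2 e')).elim (fun h => h.1.ne e) fun h => h.1.ne' e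
  let E : (C → Q) → (O1 → Q) → O1 → Q := fun u => Function.extend (fun w : C => w.1.1.1) u
  have E1 : ∀ u u' (w : C), E u u' w.1.1.1 = u w := fun u u' w => hi.extend_apply u u' w
  have E2 : ∀ u (u' : O1 → Q), (∀ w : C, u w ≤ u' w.1.1.1) → ∀ a, E u u' a ≤ u' a :=
    fun u u' hu a => by
      by_cases e : ∃ w : C, w.1.1.1 = a
      · obtain ⟨w, rfl⟩ := e
        exact (E1 _ _ w).trans_le (hu w)
      · exact (Function.extend_apply' _ _ _ e).le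
  let x₀ : List O1 → Q := fun l => match l with
    | [] => t []
    | [a] => E (fun w => z w [none]) (fun a => x [a]) a
    | l => x l
  let v₀ : Bool → List O1 → Q := fun b' l => match l with
    | [] => t [b']
    | [a] => E (fun w => z w [none, some b']) (fun a => v [a]) a
    | l => v l
  let v₁ : List O1 → Q := fun l => match l with
    | [_] => t [b, !b]
    | [a, _] => E (fun w => z w [none, some b, some !b]) (fun _ => ⊤) a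
    | _ => ⊤
  have x1 : x₀ ≤ x := fun l => by
    rcases l with _ | ⟨a, _ | ⟨c, l⟩⟩
    exacts [t1.1, E2 _ _ z2 a, le_rfl]
  have v1 : ∀ b', v₀ b' ≤ v := fun b' l => by
    rcases l with _ | ⟨a, _ | ⟨c, l⟩⟩
    exacts [t1.2 b', E2 _ _ (fun w => z3 w b') a, le_rfl]
  let x' : List O1 → Q := fun l =>
    if l.getLast? = some γ ∧ ∀ a ∈ l, a ≤ γ then v₀ b l.dropLast else x₀ l
  let v' : List O1 → Q := fun l =>
    if ∃ a ∈ l, γ < a then ⊤ else if γ ∈ l then v₁ l else v₀ (!b) l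
  have x2 : ∀ l, (∀ a ∈ l, a ≤ γ) → x' (l ++ [γ]) = v₀ b l := fun l hl => by
    simp only [x']
    rw [if_pos ⟨by simp, by simpa [or_imp, forall_and] using hl⟩, List.dropLast_concat]
  have x3 : x' [] = t [] := if_neg (by simp)
  have x4 : x' [γ] = t [b] := x2 [] (by simp)
  have v2 : v' [] = t [!b] := by simp [v', v₀]
  have v3 : v' [γ] = t [b, !b] := by simp [v', v₁]
  refine ⟨x', fun l => ?_, ⟨γ', fun l ⟨a, a1, a2⟩ => ?_⟩, ⟨(γ, x', v', t [!b, b]),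
    v2.trans_le ((t1.2 _).trans hv0), fun l hl => if_pos hl,
    by simp only [x3, x4, v2, v3]; exact t2⟩, le_rfl, hγ _ (.inr (.inl rfl)), fun w hw =>
      ⟨g1 w hw, fun l => ?_, fun l hl => ?_, ?_⟩⟩
  · simp only [x']
    split_ifs with e
    · rw [hβ l ⟨γ, List.mem_of_getLast? e.1, g0.le⟩]
      exact le_top
    · exact x1 l
  · have a3 : γ < a := (hγ' _ rfl).trans_le a2
    simp only [x']
    rw [if_neg fun e => (e.2 a a1).not_gt a3, ← hβ l ⟨a, a1, (g0.trans a3).le⟩]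
    rcases l with _ | ⟨c, _ | ⟨c', l⟩⟩
    · simp at a1
    · obtain rfl : a = c := by simpa using a1
      exact Function.extend_apply' _ _ _ fun ⟨w, e⟩ => ((g1 _ w.2).trans a3).ne e
    · rfl
  · simp only [v']
    split_ifs with e e'
    · exact (w.2.2.1 l (e.imp fun a h => ⟨h.1, (g1 w hw).trans h.2⟩)).ge
    · rw [w.2.2.1 l ⟨γ, e', g1 w hw⟩]
      exact le_top
    · exact (v1 _ l).trans (hv (some ⟨w, hw⟩) l)
  · exact (x2 l fun a ha => (hl a ha).trans (g1 w hw).le).trans_le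
      ((v1 b l).trans (hv (some ⟨w, hw⟩) l))
  · obtain ⟨j', a1, a2⟩ := z4 ⟨w, hw⟩
    have g2 := g1 w hw
    refine ⟨j', a1, hF.mono _ _ _ a2 fun m => ?_⟩
    fin_cases m
    · exact x3.trans_le (z1 _ [])
    · exact ((if_neg (by simp [g2.ne])).trans (E1 _ _ ⟨w, hw⟩)).le
    · exact x4.trans_le (z1 _ [b])
    · exact v2.trans_le (z1 _ [!b])
    · exact ((x2 [_] (by simp [g2.le])).trans (E1 _ _ ⟨w, hw⟩)).le
    · exact ((if_neg (by simp [g2.le])).trans ((if_neg (by simp [g2.ne'])).trans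
        (E1 _ _ ⟨w, hw⟩))).le
    · exact v3.trans_le (z1 _ [b, !b])
    · exact ((if_neg (by simp [g2.le])).trans ((if_pos (by simp)).trans (E1 _ _ ⟨w, hw⟩))).le

end Pool.Agent.Lib.MP_f42089_lc
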