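import Mathlib

/-! Diagrams of conditions, large families of moves and systems. -/

namespace Pool.Agent.Lib.MP_f42089_lc

open Set Cardinal

/-- The first uncountable ordinal as a type. -/
abbrev O1 : Type := (Ordinal.omega 1).ToType

theorem O1.bdd {s : Set O1} (h : s.Countable) : ∃ b, ∀ a ∈ s, a < b :=
  not_isCofinal_iff.1 fun h' => (Order.cof_le h').not_gt (by
    rw [Ordinal.cof_toType, Cardinal.cof_omega_one]
    exact (le_aleph0_iff_set_countable.2 h).trans_lt aleph0_lt_aleph_one)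

theorem O1.countable_Iio (a : O1) : (Iio a).Countable := by
  rw [← le_aleph0_iff_set_countable, ← Order.lt_succ_iff, succ_aleph0]
  simpa using mk_Iio_lt a (by simp)

/-- Countably closed preorders. -/
def Clo (Q : Type) [Preorder Q] : Prop := ∀ f : ℕ → Q, Antitone f → ∃ x, ∀ n, x ≤ f n

/-- Countable conditions for adding subsets of the first uncountable ordinal. -/
structure CC (I : Type) where
  f : I → Option Bool
  cnt : {i | f i ≠ none}.Countable

instance (I : Type) : Preorder (CC I) where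
  le q p := ∀ i b, p.f i = some b → q.f i = some b
  le_refl _ _ _ h := h
  le_trans _ _ _ h h' i b e := h i b (h' i b e)

instance (I : Type) : OrderTop (CC I) where
  top := ⟨fun _ => none, by simp⟩
  le_top _ _ _ h := by cases h

theorem CC.le_def {I : Type} {p q : CC I} : q ≤ p ↔ ∀ i b, p.f i = some b → q.f i = some b :=
  Iff.rfl

theorem CC.clo (I : Type) : Clo (CC I) := fun f hf => by
  classical
  refine ⟨⟨fun i => if h : ∃ n, (f n).f i ≠ none then (f h.choose).f i else none,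
    (countable_iUnion fun n => (f n).cnt).mono fun i hi => ?_⟩, fun n i b e => ?_⟩
  · by_contra h
    exact hi (dif_neg (by simpa using h))
  · have h : ∃ n, (f n).f i ≠ none := ⟨n, by simp [e]⟩
    obtain ⟨b', e'⟩ := Option.ne_none_iff_exists'.1 h.choose_spec
    change (if h : ∃ n, (f n).f i ≠ none then (f h.choose).f i else none) = _
    rw [dif_pos h]
    rcases le_total n h.choose with h1 | h1
    · exact hf h1 i b e
    · rw [e', ← e, hf h1 i b' e']

/-- The sublists of a triple. -/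
def lst : Fin 8 → List (Fin 3) := ![[], [0], [1], [2], [0, 1], [0, 2], [1, 2], [0, 1, 2]]

variable {Q Z K : Type}

/-- The eight conditions that a diagram attaches to an ordered triple. -/
def cube (z : List Z → Q) (a b c : Z) : Fin 8 → Q :=
  ![z [], z [a], z [b], z [c], z [a, b], z [a, c], z [b, c], z [a, b, c]]

theorem cube_eq (z : List Z → Q) (a b c : Z) (m : Fin 8) :
    cube z a b c m = z ((lst m).map ![a, b, c]) := by
  fin_cases m <;> rfl

variable [Preorder Q]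

theorem Clo.pi (h : Clo Q) (Z : Type) : Clo (Z → Q) := fun f hf => by
  choose x hx using fun z => h (fun n => f n z) fun _ _ hn => hf hn z
  exact ⟨x, fun n z => hx z n⟩

theorem Clo.prod {Q' : Type} [Preorder Q'] (h : Clo Q) (h' : Clo Q') : Clo (Q × Q') :=
  fun f hf => by
    obtain ⟨x, hx⟩ := h (fun n => (f n).1) fun _ _ hn => (hf hn).1
    obtain ⟨y, hy⟩ := h' (fun n => (f n).2) fun _ _ hn => (hf hn).2
    exact ⟨(x, y), fun n => ⟨hx n, hy n⟩⟩

/-- Countably many open dense tasks can be met. -/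
theorem Clo.meet (h : Clo Q) {ι : Type} [Countable ι] {D : ι → Q → Prop} {p : Q}
    (hD : ∀ i, ∀ q ≤ p, ∃ r ≤ q, D i r) : ∃ q ≤ p, ∀ i, ∃ r, q ≤ r ∧ r ≤ p ∧ D i r := by
  rcases isEmpty_or_nonempty ι with _ | _
  · exact ⟨p, le_rfl, isEmptyElim⟩
  obtain ⟨e, he⟩ := exists_surjective_nat ι
  choose g g1 g2 using hD
  let s : ℕ → {q // q ≤ p} := fun n => Nat.rec ⟨p, le_rfl⟩
    (fun n q => ⟨g (e n) q.1 q.2, (g1 _ _ _).trans q.2⟩) n
  obtain ⟨x, hx⟩ := h (fun n => (s n).1) (antitone_nat_of_succ_le fun n => g1 _ _ _)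
  refine ⟨x, hx 0, fun i => ?_⟩
  obtain ⟨n, rfl⟩ := he i
  exact ⟨_, hx (n + 1), (s (n + 1)).2, g2 _ _ _⟩

/-- Countable chains have lower bounds. -/
theorem Clo.chain [OrderTop Q] (h : Clo Q) {ι : Type} [Countable ι] (f : ι → Q)
    (hf : ∀ i j, f i ≤ f j ∨ f j ≤ f i) : ∃ x, ∀ i, x ≤ f i := by
  rcases isEmpty_or_nonempty ι with _ | _
  · exact ⟨⊤, isEmptyElim⟩
  obtain ⟨e, he⟩ := exists_surjective_nat ι
  choose g g1 g2 using fun i j => (hf i j).elim (fun h => (⟨i, le_rfl, h⟩ :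
    ∃ k, f k ≤ f i ∧ f k ≤ f j)) fun h => ⟨j, h, le_rfl⟩
  let s : ℕ → ι := fun n => Nat.rec (e 0) (fun n i => g i (e n)) n
  obtain ⟨x, hx⟩ := h (fun n => f (s n)) (antitone_nat_of_succ_le fun n => g1 _ _)
  refine ⟨x, fun i => ?_⟩
  obtain ⟨n, rfl⟩ := he i
  exact (hx (n + 1)).trans (g2 _ _)

theorem cube_mono {z z' : List Z → Q} (h : z' ≤ z) (a b c : Z) : cube z' a b c ≤ cube z a b c :=
  fun m => by rw [cube_eq, cube_eq]; exact h _

/-- The relation `F u j` (the cube `u` forces the colour `j`) is monotone and dense. -/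
structure Col (F : (Fin 8 → Q) → K → Prop) (p : Q) : Prop where
  mono : ∀ u u' j, F u j → u' ≤ u → F u' j
  dense : ∀ u, u 0 ≤ p → ∃ u' ≤ u, ∃ j, F u' j

/-- The six orders of three points. -/
abbrev Od : Type := {x : Option Bool × Option Bool × Option Bool //
  x.1 ≠ x.2.1 ∧ x.1 ≠ x.2.2 ∧ x.2.1 ≠ x.2.2}

/-- The order in which the third point comes first and the side `b` second. -/
def inc (b : Bool) : Od := ⟨(none, some b, some !b), by cases b <;> decide⟩

/-- Moves: diagrams on two points. -/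
abbrev Mv (Q : Type) : Type := List Bool → Q

/-- The diagram `z` on three points extends the move `t` and the data `d` of the third point. -/
def Below (z : List (Option Bool) → Q) (t : Mv Q) (d : Q × Q × Q) : Prop :=
  (∀ l, z (l.map some) ≤ t l) ∧ z [none] ≤ d.1 ∧
    ∀ b, z [none, some b] ≤ d.2.1 ∧ z [some b, none] ≤ d.2.2

variable (F : (Fin 8 → Q) → K → Prop)

/-- The diagram forces the pattern `ρ` of colours. -/
def Frc (z : List (Option Bool) → Q) (ρ : Od → K) : Prop :=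
  ∀ π : Od, F (cube z π.1.1 π.1.2.1 π.1.2.2) (ρ π)

/-- The moves with which the pattern `ρ` can be forced. -/
def Ach (d : Q × Q × Q) (ρ : Od → K) : Set (Mv Q) := {t | ∃ z, Below z t d ∧ Frc F z ρ}

/-- The move lies below a state (root, point). -/
def Und (t : Mv Q) (σ : Q × Q) : Prop := t [] ≤ σ.1 ∧ ∀ b, t [b] ≤ σ.2

/-- Countable intersections of members have dense interior below the state. -/
def Large (𝓕 : Set (Set (Mv Q))) (σ : Q × Q) : Prop :=
  ∀ 𝒞 ⊆ 𝓕, 𝒞.Countable → ∀ σ' ≤ σ, ∃ t, Und t σ' ∧ ∀ t' ≤ t, ∀ D ∈ 𝒞, t' ∈ D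

/-- The data of side `b` of a move, seen from the other side. -/
def dat (b : Bool) (s : Mv Q) : Q × Q × Q := (s [b], s [b, !b], s [!b, b])

/-- The state on the side opposite to `b`. -/
def nxt (b : Bool) (s : Mv Q) : Q × Q := (s [], s [!b])

/-- The family enlarged by the demands of a third point. -/
def Ext (𝓕 : Set (Set (Mv Q))) (d : Q × Q × Q) (ρ : Od → K) : Set (Set (Mv Q)) :=
  𝓕 ∪ {D | ∃ d' ≤ d, D = Ach F d' ρ}

/-- Good moves. -/
def Gd (b : Bool) (ρ : Od → K) (𝓕 : Set (Set (Mv Q))) : Set (Mv Q) :=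
  {s | Large (Ext F 𝓕 (dat b s) ρ) (nxt b s)}

/-- Patterns with many good moves. -/
def Rs (b : Bool) (𝓕 : Set (Set (Mv Q))) (σ : Q × Q) : Set (Od → K) :=
  {ρ | ∃ σ' ≤ σ, Large (insert (Gd F b ρ 𝓕) 𝓕) σ'}

variable {F}

theorem Large.mono {𝓕 𝓕' : Set (Set (Mv Q))} {σ σ' : Q × Q} (h : Large 𝓕 σ) (h1 : 𝓕' ⊆ 𝓕)
    (h2 : σ' ≤ σ) : Large 𝓕' σ' := fun 𝒞 a b τ c => h 𝒞 (a.trans h1) b τ (c.trans h2)

theorem Und.mono {t t' : Mv Q} {σ σ' : Q × Q} (h : Und t σ) (h1 : t' ≤ t) (h2 : σ ≤ σ') :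
    Und t' σ' := ⟨(h1 _).trans (h.1.trans h2.1), fun b => (h1 _).trans ((h.2 b).trans h2.2)⟩

theorem Below.mono {z z' : List (Option Bool) → Q} {t t' : Mv Q} {d d' : Q × Q × Q}
    (h : Below z t d) (h0 : z' ≤ z) (h1 : t ≤ t') (h2 : d ≤ d') : Below z' t' d' :=
  ⟨fun l => (h0 _).trans ((h.1 l).trans (h1 l)), (h0 _).trans (h.2.1.trans h2.1), fun b =>
    ⟨(h0 _).trans ((h.2.2 b).1.trans h2.2.1), (h0 _).trans ((h.2.2 b).2.trans h2.2.2)⟩⟩

theorem ext_mono {𝓕 𝓕' : Set (Set (Mv Q))} {d d' : Q × Q × Q} (h : 𝓕' ⊆ 𝓕) (h' : d' ≤ d)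
    (ρ : Od → K) : Ext F 𝓕' d' ρ ⊆ Ext F 𝓕 d ρ :=
  union_subset_union h fun _ ⟨e, a, b⟩ => ⟨e, a.trans h', b⟩

theorem gd_mono {b : Bool} {ρ : Od → K} {𝓕 : Set (Set (Mv Q))} {s s' : Mv Q}
    (h : s ∈ Gd F b ρ 𝓕) (h' : s' ≤ s) : s' ∈ Gd F b ρ 𝓕 :=
  Large.mono h (ext_mono subset_rfl ⟨h' _, h' _, h' _⟩ ρ) ⟨h' _, h' _⟩

variable [OrderTop Q]

/-- Diagrams on countable ordinals with bounded support. -/
def Bd (x : List O1 → Q) : Prop := ∃ β, ∀ l, (∃ a ∈ l, β ≤ a) → x l = ⊤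

variable (F) in
/-- A system of histories that only takes colours from `j` below the root `r`. -/
def Sys (r : Q) (j : Set K) : Prop :=
  ∃ (H : Type) (act : H → (List O1 → Q) → Prop) (top : H → O1) (rel : H → H → Prop),
    (∀ h x x', act h x → x' ≤ x → act h x') ∧ (∀ h h', rel h h' → top h < top h') ∧
    (∀ h₁ h₂ h₃ x, rel h₁ h₂ → rel h₁ h₃ → rel h₂ h₃ → x [] ≤ r → act h₁ x → act h₂ x → act h₃ x →
      ∃ j' ∈ j, F (cube x (top h₁) (top h₂) (top h₃)) j') ∧
    ∀ C : Set H, C.Countable → C.Pairwise (fun h h' => rel h h' ∨ rel h' h) → ∀ x, Bd x →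
      x [] ≤ r → (∀ h ∈ C, act h x) → ∀ β, ∃ x' ≤ x, Bd x' ∧ ∃ h, act h x' ∧ β < top h ∧
        ∀ h' ∈ C, rel h' h

end Pool.Agent.Lib.MP_f42089_lc
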