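import Pool.Agent.Lib.MP_f42089_lc.Defs
import Pool.Agent.Lib.MP_9e0ccb_an.Ramsey

/-! Order indiscernibles. -/

namespace Pool.Agent.Lib.MP_f42089_lc

open Set Cardinal

theorem ind_ext {Y : Type} [LinearOrder Y] {X : Set Y} (hX : ∀ a ∈ X, ∃ b ∈ X, a < b)
    {t : Finset Y} (ht : ↑t ⊆ X) (hne : t.Nonempty) (k : ℕ) : ∃ s : Finset Y, ↑s ⊆ X ∧ t ⊆ s ∧
      s.card = t.card + k ∧ ∀ v ∈ s, v ∈ t ∨ ∀ w ∈ t, w < v := by
  induction k with
  | zero => exact ⟨t, ht, subset_rfl, rfl, fun v hv => Or.inl hv⟩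
  | succ k ih =>
    obtain ⟨s, h1, h2, h3, h4⟩ := ih
    obtain ⟨b, hb, hlt⟩ := hX _ (h1 (s.max'_mem (hne.mono h2)))
    have hs : ∀ w ∈ s, w < b := fun w hw => (s.le_max' w hw).trans_lt hlt
    refine ⟨insert b s, by simpa [insert_subset_iff] using ⟨hb, h1⟩,
      h2.trans (Finset.subset_insert _ _), ?_, fun v hv => ?_⟩
    · rw [Finset.card_insert_of_notMem fun h => (hs b h).false, h3, add_assoc]
    · rcases Finset.mem_insert.1 hv with rfl | hv
      · exact Or.inr fun w hw => hs w (h2 hw)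
      · exact h4 v hv

theorem ind_card {Y : Type} [DecidableEq Y] {x x' : Fin 6 → Y}
    (h : ∀ i j, x' i = x' j → x i = x j) (S : Finset (Fin 6)) :
    (S.image x).card ≤ (S.image x').card := by
  have e : S.image x = (S.image x').image (x ∘ Function.invFun x') := by
    rw [Finset.image_image]
    exact Finset.image_congr fun i _ => h _ _ (Function.invFun_eq ⟨i, rfl⟩).symm
  rw [e]
  exact Finset.card_image_le

theorem ind_rank {Y : Type} [LinearOrder Y] {X : Set Y} (hX : ∀ a ∈ X, ∃ b ∈ X, a < b)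
    {x : Fin 6 → Y} (hx : ∀ i, x i ∈ X) : ∃ s : Finset Y, ↑s ⊆ X ∧ s.card = 6 ∧ (∀ i, x i ∈ s) ∧
      ∀ i, (s.filter (· < x i)).card = ((Finset.univ.filter fun j => x j < x i).image x).card := by
  have h6 : (Finset.univ.image x).card ≤ 6 := Finset.card_image_le.trans (by simp)
  obtain ⟨s, h1, h2, h3, h4⟩ := ind_ext hX (t := Finset.univ.image x)
    (by simpa [range_subset_iff] using hx) (by simp) (6 - (Finset.univ.image x).card)
  have hm : ∀ i, x i ∈ Finset.univ.image x := fun i => Finset.mem_image_of_mem _ (Finset.mem_univ i)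
  refine ⟨s, h1, by omega, fun i => h2 (hm i), fun i => congrArg Finset.card ?_⟩
  ext v
  simp only [Finset.mem_filter, Finset.mem_image, Finset.mem_univ, true_and]
  constructor
  · rintro ⟨hv, hlt⟩
    rcases h4 v hv with h | h
    · obtain ⟨j, -, rfl⟩ := Finset.mem_image.1 h
      exact ⟨j, hlt, rfl⟩
    · exact absurd hlt (h _ (hm i)).not_gt
  · rintro ⟨j, hj, rfl⟩
    exact ⟨h2 (hm j), hj⟩

theorem ind_lt {Y : Type} [LinearOrder Y] {s : Finset Y} {a b : Y} (ha : a ∈ s) (h : a < b) :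
    (s.filter (· < a)).card < (s.filter (· < b)).card :=
  Finset.card_lt_card ⟨fun _ hv => Finset.mem_filter.2
    ⟨(Finset.mem_filter.1 hv).1, (Finset.mem_filter.1 hv).2.trans h⟩,
    fun c => (Finset.mem_filter.1 (c (Finset.mem_filter.2 ⟨ha, h⟩))).2.false⟩

theorem ind_emb {L Y : Type} [LinearOrder L] [WellFoundedLT L] [LinearOrder Y] [WellFoundedLT Y]
    {X : Set Y} (h : #L < #X) : ∃ e : L → Y, StrictMono e ∧ ∀ a, e a ∈ X := by
  rcases le_total (Ordinal.type (α := L) (· < ·)) (Ordinal.type (α := X) (· < ·)) with c | c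
  · obtain ⟨f⟩ := Ordinal.type_le_iff'.1 c
    exact ⟨fun a => f a, fun a b hab => f.map_rel_iff.2 hab, fun a => (f a).2⟩
  · obtain ⟨f⟩ := Ordinal.type_le_iff'.1 c
    exact absurd (mk_le_of_injective f.injective) h.not_ge

theorem indisc (τ : Type) : ∃ (Y : Type) (_ : LinearOrder Y), ∀ R : τ → (Fin 6 → Y) → Prop,
    ∃ e : O1 ×ₗ ℕ → Y, StrictMono e ∧ ∀ (u : τ) (x x' : Fin 6 → O1 ×ₗ ℕ),
      (∀ i i', x i < x i' ↔ x' i < x' i') → R u (e ∘ x) → R u (e ∘ x') := by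
  obtain ⟨Θ, hΘ⟩ := MP_9e0ccb_an.erdos_rado (Set (τ × (Fin 6 → ℕ))) 6 (Order.succ #(O1 ×ₗ ℕ))
  refine ⟨Θ.ord.ToType, inferInstance, fun R => ?_⟩
  obtain ⟨X, hX, p, hp⟩ := hΘ Θ.ord.ToType (by simp) fun s => {q | ∃ y : Fin 6 → Θ.ord.ToType,
    (∀ i, y i ∈ s) ∧ (∀ i, q.2 i = (s.filter (· < y i)).card) ∧ R q.1 y}
  obtain ⟨e, he, heX⟩ := ind_emb (Order.succ_le_iff.1 hX)
  refine ⟨e, he, fun u x x' h hR => ?_⟩
  have hr : range e ⊆ X := range_subset_iff.2 heX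
  have hn : ∀ a ∈ range e, ∃ b ∈ range e, a < b := by
    rintro _ ⟨a, rfl⟩
    exact ⟨_, ⟨toLex ((ofLex a).1, (ofLex a).2 + 1), rfl⟩,
      he (Prod.Lex.lt_iff.2 (Or.inr ⟨rfl, Nat.lt_succ_self _⟩))⟩
  obtain ⟨s, s1, s2, s3, s4⟩ := ind_rank hn (x := e ∘ x) fun i => ⟨_, rfl⟩
  obtain ⟨t, t1, t2, t3, t4⟩ := ind_rank hn (x := e ∘ x') fun i => ⟨_, rfl⟩
  have hc := (hp s (s1.trans hr) s2).trans (hp t (t1.trans hr) t2).symm
  obtain ⟨y, y1, y2, y3⟩ := (Set.ext_iff.1 hc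
    (u, fun i => (s.filter (· < (e ∘ x) i)).card)).1 ⟨e ∘ x, s3, fun _ => rfl, hR⟩
  have hl : ∀ i j, (e ∘ x) i < (e ∘ x) j ↔ (e ∘ x') i < (e ∘ x') j := fun i j =>
    he.lt_iff_lt.trans ((h i j).trans he.lt_iff_lt.symm)
  have hq : ∀ i j, (e ∘ x) i = (e ∘ x) j ↔ (e ∘ x') i = (e ∘ x') j := fun i j => by
    simp only [le_antisymm_iff, ← not_lt, hl]
  have key : y = e ∘ x' := by
    funext i
    have k1 : (t.filter (· < y i)).card = (t.filter (· < (e ∘ x') i)).card := by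
      rw [← y2 i, t4 i]
      refine (s4 i).trans ?_
      simp only [hl]
      exact le_antisymm (ind_card (fun a b => (hq a b).2) _) (ind_card (fun a b => (hq a b).1) _)
    rcases lt_trichotomy (y i) ((e ∘ x') i) with c | c | c
    · exact absurd k1 (ind_lt (y1 i) c).ne
    · exact c
    · exact absurd k1 (ind_lt (t3 i) c).ne'
  exact key ▸ y3

end Pool.Agent.Lib.MP_f42089_lc
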