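import Pool.Agent.Lib.MP_f42089_lc.Defs

/-! A maximal family of histories in which compatible members are related. -/

namespace Pool.Agent.Lib.MP_f42089_lc

open Set Cardinal

theorem tree {P H : Type} [Preorder P] (hP : Clo P) {act : H → P → Prop} {top : H → O1}
    {rel : H → H → Prop} {q₀ : P} (hm : ∀ h q q', act h q → q' ≤ q → act h q')
    (hlt : ∀ h h', rel h h' → top h < top h')
    (hext : ∀ C : Set H, C.Countable → C.Pairwise (fun h h' => rel h h' ∨ rel h' h) → ∀ q ≤ q₀,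
      (∀ h ∈ C, act h q) → ∀ β, ∃ q' ≤ q, ∃ h, act h q' ∧ β < top h ∧ ∀ h' ∈ C, rel h' h) :
    ∃ V : O1 → P → Prop, (∀ a q q', V a q → q' ≤ q → V a q') ∧
      (∀ q ≤ q₀, ∀ β, ∃ r ≤ q, ∃ a, β < a ∧ V a r) ∧
      ∀ a b c q, a < b → b < c → V a q → V b q → V c q → ∃ h₁ h₂ h₃, top h₁ = a ∧ top h₂ = b ∧
        top h₃ = c ∧ act h₁ q ∧ act h₂ q ∧ act h₃ q ∧ rel h₁ h₂ ∧ rel h₁ h₃ ∧ rel h₂ h₃ := by
  obtain ⟨T, ⟨h1, h2⟩, hT⟩ := zorn_subset {T : Set (H × P) | (∀ x ∈ T, act x.1 x.2) ∧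
      ∀ x ∈ T, ∀ y ∈ T, ∀ r, r ≤ x.2 → r ≤ y.2 → x.1 = y.1 ∨ rel x.1 y.1 ∨ rel y.1 x.1}
    fun c hc hch => ⟨⋃₀ c, ⟨fun x ⟨s, a, b⟩ => (hc a).1 x b, fun x ⟨s, a, b⟩ y ⟨s', a', b'⟩ =>
      (hch.total a a').elim (fun k => (hc a').2 x (k b) y b') fun k => (hc a).2 x b y (k b')⟩,
      fun s hs => subset_sUnion_of_mem hs⟩
  have h3 : ∀ x ∈ T, ∀ y ∈ T, ∀ r, r ≤ x.2 → r ≤ y.2 → top x.1 = top y.1 → x.1 = y.1 :=
    fun x a y b r c d e => (h2 x a y b r c d).elim id fun k =>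
      k.elim (fun k => absurd e (hlt _ _ k).ne) fun k => absurd e (hlt _ _ k).ne'
  have h4 : ∀ x ∈ T, ∀ y ∈ T, ∀ r, r ≤ x.2 → r ≤ y.2 → top x.1 < top y.1 → rel x.1 y.1 :=
    fun x a y b r c d e => (h2 x a y b r c d).elim (fun k => absurd (congrArg top k) e.ne) fun k =>
      k.elim id fun k => absurd e (hlt _ _ k).not_gt
  refine ⟨fun a r => ∃ x ∈ T, top x.1 = a ∧ r ≤ x.2,
    fun a q q' ⟨x, k1, k2, k3⟩ k => ⟨x, k1, k2, k.trans k3⟩, fun q hq β => ?_, ?_⟩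
  · by_contra hn
    have h5 : ∀ r ≤ q, ∀ x ∈ T, r ≤ x.2 → top x.1 ≤ β := fun r a x b c =>
      not_lt.1 fun k => hn ⟨r, a, _, k, x, b, rfl, c⟩
    have hc : (Iic β).Countable := Iio_insert (a := β) ▸ (O1.countable_Iio β).insert β
    have := hc.to_subtype
    obtain ⟨r, hr, hD⟩ := hP.meet (ι := Iic β) (p := q)
      (D := fun i r => (∃ x ∈ T, top x.1 = i ∧ r ≤ x.2) ∨
        ¬ ∃ r' ≤ r, ∃ x ∈ T, top x.1 = i ∧ r' ≤ x.2) fun i r _ => by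
      by_cases k : ∃ r' ≤ r, ∃ x ∈ T, top x.1 = i ∧ r' ≤ x.2
      · obtain ⟨r', a, b⟩ := k
        exact ⟨r', a, Or.inl b⟩
      · exact ⟨r, le_rfl, Or.inr k⟩
    obtain ⟨q', a, h, b, c, d⟩ := hext {h | ∃ p, (h, p) ∈ T ∧ r ≤ p}
      (MapsTo.countable_of_injOn (f := top) (fun h ⟨p, a, b⟩ => h5 r hr _ a b)
        (fun h ⟨p, a, b⟩ h' ⟨p', a', b'⟩ => h3 _ a _ a' r b b') hc)
      (fun h ⟨p, a, b⟩ h' ⟨p', a', b'⟩ k => (h2 _ a _ a' r b b').resolve_left k) r (hr.trans hq)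
      (fun h ⟨p, a, b⟩ => hm _ _ _ (h1 _ a) b) β
    have h6 : ∀ y ∈ T, ∀ r', r' ≤ q' → r' ≤ y.2 → rel y.1 h := fun y k r' k1 k2 => by
      obtain ⟨s, s1, -, ⟨x, x1, x2, x3⟩ | s2⟩ := hD ⟨_, h5 r' (k1.trans (a.trans hr)) y k k2⟩
      · rw [← h3 x x1 y k r' (k1.trans (a.trans (s1.trans x3))) k2 x2]
        exact d _ ⟨x.2, x1, s1.trans x3⟩
      · exact absurd ⟨r', k1.trans (a.trans s1), y, k, rfl, k2⟩ s2
    refine c.not_ge (h5 q' (a.trans hr) (h, q') (hT (y := insert (h, q') T) ⟨?_, ?_⟩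
      (subset_insert _ _) (mem_insert _ _)) le_rfl)
    · rintro x (rfl | k)
      exacts [b, h1 x k]
    · rintro x (rfl | k) y (rfl | k') r' k1 k2
      exacts [Or.inl rfl, Or.inr (Or.inr (h6 y k' r' k1 k2)), Or.inr (Or.inl (h6 x k r' k2 k1)),
        h2 x k y k' r' k1 k2]
  · rintro _ _ _ q ab bc ⟨x, x1, rfl, x2⟩ ⟨y, y1, rfl, y2⟩ ⟨z, z1, rfl, z2⟩
    exact ⟨x.1, y.1, z.1, rfl, rfl, rfl, hm _ _ _ (h1 x x1) x2, hm _ _ _ (h1 y y1) y2,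
      hm _ _ _ (h1 z z1) z2, h4 x x1 y y1 q x2 y2 ab, h4 x x1 z z1 q x2 z2 (ab.trans bc),
      h4 y y1 z z1 q y2 z2 bc⟩

end Pool.Agent.Lib.MP_f42089_lc
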