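import Pool.Agent.Lib.MP_f42089_lc.Can
import Pool.Agent.Lib.MP_f42089_lc.Cnt
import Pool.Agent.Lib.MP_f42089_lc.Zorn

/-! The theorem in the ground model. -/

namespace Pool.Agent.Lib.MP_f42089_lc

open Set

theorem CC.ext' {I : Type} {p q : CC I} (h : ∀ i, p.f i = q.f i) : p = q := by
  cases p
  cases q
  congr
  exact funext h

/-- Transport of values along a relation that is injective in both directions. -/
theorem link_tr {α β : Type} {ρ : α → β → Prop} (h1 : ∀ a b b', ρ a b → ρ a b' → b = b')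
    (h2 : ∀ a a' b, ρ a b → ρ a' b → a = a') (g : CC β) (d : CC α) :
    ∃ q : CC α, (∀ a b, ρ a b → q.f a = g.f b) ∧ ∀ a, (¬∃ b, ρ a b) → q.f a = d.f a := by
  classical
  refine ⟨⟨fun a => if h : ∃ b, ρ a b then g.f h.choose else d.f a, ?_⟩,
    fun a b h => (dif_pos ⟨b, h⟩).trans (congrArg _ (h1 _ _ _ (Exists.choose_spec ⟨b, h⟩) h)),
    fun a h => dif_neg h⟩
  refine ((g.cnt.biUnion fun b _ => (show {a | ρ a b}.Subsingleton from
    fun a h a' h' => h2 a a' b h h').countable).union d.cnt).mono fun a ha => ?_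
  by_cases h : ∃ b, ρ a b
  · exact Or.inl (mem_biUnion (fun e => ha ((dif_pos h).trans e)) h.choose_spec)
  · exact Or.inr fun e => ha ((dif_neg h).trans e)

/-- The family of conditions given by a condition on pairs. -/
def cur {Z I : Type} (X : CC (Z × I)) (l : Z) : CC I :=
  ⟨fun k => X.f (l, k), X.cnt.preimage_of_injOn (f := fun k => (l, k))
    fun _ _ _ _ h => congrArg Prod.snd h⟩

theorem link_unc {Z I : Type} {x : Z → CC I} (h : {l | x l ≠ ⊤}.Countable) :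
    ∃ X : CC (Z × I), cur X = x :=
  ⟨⟨fun m => (x m.1).f m.2, (h.biUnion fun l _ => (x l).cnt.image (Prod.mk l)).mono fun m hm => by
    refine mem_iUnion₂.2 ⟨m.1, fun e => hm ?_, m.2, hm, rfl⟩
    exact congrArg (fun r => r.f m.2) e⟩, funext fun _ => CC.ext' fun _ => rfl⟩

theorem cur_le {Z I : Type} {X X' : CC (Z × I)} : cur X ≤ cur X' ↔ X ≤ X' :=
  ⟨fun h m => h m.1 m.2, fun h l k => h (l, k)⟩

theorem cur_bd {I : Type} (X : CC (List O1 × I)) : Bd (cur X) := by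
  obtain ⟨β, h⟩ := O1.bdd (X.cnt.biUnion fun m _ => (List.finite_toSet m.1).countable)
  refine ⟨β, fun l ⟨a, ha, hb⟩ => CC.ext' fun k => ?_⟩
  by_contra e
  exact (h a (mem_biUnion (show (l, k) ∈ {m | X.f m ≠ none} from e) ha)).not_ge hb

theorem bd_unc {I : Type} {x : List O1 → CC I} (h : Bd x) : ∃ X, cur X = x := by
  obtain ⟨β, h⟩ := h
  have := (O1.countable_Iio β).to_subtype
  refine link_unc ((countable_range (List.map (Subtype.val : Iio β → O1))).mono fun l hl => ?_)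
  exact ⟨l.pmap Subtype.mk fun a ha => mem_Iio.2 (not_le.1 fun e => hl (h l ⟨a, ha, e⟩)), by
    rw [List.map_pmap, List.pmap_eq_map, List.map_id']⟩

theorem lst_zero {m : Fin 8} {a b c a' b' c' : O1} (ha : a ≠ a') (hb : b ≠ b') (hc : c ≠ c')
    (h : (lst m).map ![a, b, c] = (lst m).map ![a', b', c']) : m = 0 := by
  fin_cases m <;> simp_all [lst]

theorem lst_inj {m m' : Fin 8} {a b c : O1} (h1 : a < b) (h2 : b < c)
    (h : (lst m).map ![a, b, c] = (lst m').map ![a, b, c]) : m = m' :=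
  (show Function.Injective lst by decide) (List.map_injective_iff.2
    (Fin.strictMono_iff_lt_succ.2 (Fin.forall_fin_two.2 ⟨h1, h2⟩)).injective h)

/-- Terms. -/
inductive Tm : Type
  | base (n : ℕ) : Tm
  | app (q : ℕ → Tm) (v : ℕ → Option Bool) (n : ℕ) : Tm

theorem link_en {I : Type} [Nonempty I] (r : CC I) : ∃ e : ℕ → I, ∀ i, r.f i ≠ none → ∃ n, e n = i :=
  ⟨enumerateCountable r.cnt (Classical.arbitrary I), fun _ h =>
    subset_range_enumerate r.cnt _ h⟩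

/-- A closed set of coordinates, listed by terms. -/
theorem link_terms {I : Type} [Nonempty I] {p : CC I} {e : ℕ → I} (D : CC I → Prop) :
    ∃ f : Tm → I, (∀ n, f (.base n) = e n) ∧ ((∀ q ≤ p, ∃ r ≤ q, D r) → ∀ q ≤ p,
      (∀ i, q.f i ≠ none → ∃ s, f s = i) → ∃ r ≤ q, D r ∧ ∀ i, r.f i ≠ none → ∃ s, f s = i) := by
  classical
  by_cases hD : ∀ q ≤ p, ∃ r ≤ q, D r
  swap
  · exact ⟨Tm.rec e fun _ _ n _ => e n, fun _ => rfl, fun h => absurd h hD⟩
  choose! dn d1 d2 using hD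
  choose en hen using fun r : CC I => link_en r
  let cd : (ℕ → I) → (ℕ → Option Bool) → CC I := fun g v =>
    ⟨fun i => if h : ∃ n, g n = i then v h.choose else none, (countable_range g).mono fun i hi => by
      by_contra h
      exact hi (dif_neg h)⟩
  let f : Tm → I := Tm.rec e fun _ v n g => en (dn (cd g v)) n
  refine ⟨f, fun _ => rfl, fun _ q hq hs => ⟨dn q, d1 q hq, d2 q hq, fun i hi => ?_⟩⟩
  have : Nonempty Tm := ⟨.base 0⟩
  choose! t ht using hs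
  have h : cd (fun n => f (t (en q n))) (fun n => q.f (f (t (en q n)))) = q := CC.ext' fun i => by
    by_cases h : ∃ n, f (t (en q n)) = i
    · exact (dif_pos h).trans (congrArg _ h.choose_spec)
    · refine (dif_neg h).trans (by_contra fun e => ?_)
      obtain ⟨n, rfl⟩ := hen q i (Ne.symm e)
      exact h ⟨n, ht _ (Ne.symm e)⟩
  obtain ⟨n, rfl⟩ := hen _ i hi
  exact ⟨.app (fun n => t (en q n)) (fun n => q.f (f (t (en q n)))) n,
    congrArg (fun r => en (dn r) n) h⟩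

theorem core : ∃ (Y : Type) (_ : LinearOrder Y), ∀ (I : Type) [Nonempty I] (k : ℕ)
    (W : Y → Y → Y → CC I → Fin k → Prop) (p : CC I),
    (∀ a b c q q' j, W a b c q j → q' ≤ q → W a b c q' j) →
    (∀ a b c, a < b → b < c → ∀ q ≤ p, ∃ r ≤ q, ∃ j, W a b c r j) →
    ∃ (y : O1 → Y) (q₀ : CC I) (S : Finset (Fin k)) (V : O1 → CC I → Prop), StrictMono y ∧
      q₀ ≤ p ∧ S.card ≤ bnd k ∧
      (∀ a q q', V a q → q' ≤ q → V a q') ∧ (∀ q ≤ q₀, ∀ β, ∃ r ≤ q, ∃ a, β < a ∧ V a r) ∧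
      ∀ a b c q, a < b → b < c → V a q → V b q → V c q →
        ∃ j' ∈ S, W (y a) (y b) (y c) q j' := by
  classical
  obtain ⟨Y, iY, hY⟩ := canon Tm ((Tm → Option Bool) × ℕ)
  refine ⟨Y, iY, fun I iI k₀ W p hm hd => ?_⟩
  obtain ⟨e, he⟩ := link_en p
  choose f f1 f2 using fun a b c => link_terms (p := p) (e := e) fun r => ∃ j, W a b c r j
  obtain ⟨y, cl, sg, hy, H⟩ := hY I f fun u a b c => ∃ r : CC I, (∀ s, r.f (f a b c s) = u.1 s) ∧
    (∀ i, r.f i ≠ none → ∃ s, f a b c s = i) ∧ ∃ h : u.2 < k₀, W a b c r ⟨u.2, h⟩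
  choose nx hn using fun a : O1 => O1.bdd (countable_singleton a)
  replace hn : ∀ a, a < nx a := fun a => hn a a rfl
  obtain ⟨a₀, -⟩ := O1.bdd countable_empty
  have t1 := hn a₀
  have t2 := hn (nx a₀)
  have s0 : ∀ n, sg (.base n) = 0 := fun n => lst_zero t1.ne t2.ne (hn _).ne
    (((H _ _ _ _ _ _ t1 t2 t2 (hn _)).2 _ _).1 ((f1 _ _ _ n).trans (f1 _ _ _ n).symm)).2
  have H0 := fun s t => ((H _ _ _ _ _ _ t1 t2 t1 t2).2 s t)
  generalize hφ : f (y a₀) (y (nx a₀)) (y (nx (nx a₀))) = φ at H0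
  have H1 : ∀ s t, φ s = φ t ↔ (sg s, cl s) = (sg t, cl t) := fun s t => (H0 s t).trans
    ⟨fun h => Prod.ext (lst_inj t1 t2 h.2) h.1, fun h => ⟨congrArg Prod.snd h, by
      rw [show sg s = sg t from congrArg Prod.fst h]⟩⟩
  have φ1 : ∀ n, φ (.base n) = e n := hφ ▸ f1 _ _ _
  obtain ⟨p₀, hp₀, -⟩ := link_tr (ρ := fun k i => ∃ n, cl (.base n) = k ∧ e n = i)
    (fun _ _ _ ⟨n, a, b⟩ ⟨m, c, d⟩ => by
      rw [← b, ← d, ← φ1, ← φ1, H1, s0, s0, a, c])
    (fun _ _ _ ⟨n, a, b⟩ ⟨m, c, d⟩ => by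
      rw [← a, ← c]
      exact congrArg Prod.snd ((H1 _ _).1 (by rw [φ1, φ1, b, d]))) p ⊤
  let F : (Fin 8 → CC I) → Fin k₀ → Prop := fun u j => ∃ r : CC I,
    (∀ i, r.f i ≠ none → ∃ s, φ s = i) ∧ W (y a₀) (y (nx a₀)) (y (nx (nx a₀))) r j ∧
      ∀ s v, r.f (φ s) = some v → (u (sg s)).f (cl s) = some v
  have hF : Col F p₀ := ⟨fun u u' j k h =>
    k.imp fun r k => ⟨k.1, k.2.1, fun s v w => h _ _ _ (k.2.2 s v w)⟩, fun u hu => by
      obtain ⟨X, rfl⟩ := link_unc (x := u) (to_countable _)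
      have k1 : ∀ i m m', (∃ s, φ s = i ∧ (sg s, cl s) = m) → (∃ s, φ s = i ∧ (sg s, cl s) = m') →
          m = m' := fun _ _ _ ⟨s, a, b⟩ ⟨t, c, d⟩ => by rw [← b, ← d, ← H1, a, c]
      have k2 : ∀ i i' m, (∃ s, φ s = i ∧ (sg s, cl s) = m) → (∃ s, φ s = i' ∧ (sg s, cl s) = m) →
          i = i' := fun _ _ _ ⟨s, a, b⟩ ⟨t, c, d⟩ => by rw [← a, ← c, H1, b, d]
      obtain ⟨q, q1, q2⟩ := link_tr k1 k2 X ⊤
      obtain ⟨r, r1, ⟨j, r2⟩, r3⟩ := f2 _ _ _ (hd _ _ _ (hy t1) (hy t2)) q (fun i v h => by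
        obtain ⟨n, rfl⟩ := he i (by simp [h])
        rw [q1 _ _ ⟨.base n, φ1 n, rfl⟩, s0]
        exact hu _ _ ((hp₀ _ _ ⟨n, rfl, rfl⟩).trans h)) fun i hi => by
          by_contra h
          exact hi (q2 i fun ⟨_, s, a, _⟩ => h ⟨s, hφ ▸ a⟩)
      obtain ⟨X', x1, x2⟩ := link_tr (fun m i i' => k2 i i' m) (fun m m' i => k1 i m m') r X
      refine ⟨cur X', cur_le.2 fun m v h => ?_, j, r, hφ ▸ r3, r2, fun s v h =>
        (x1 _ _ ⟨s, rfl, rfl⟩).trans h⟩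
      by_cases k : ∃ i s, φ s = i ∧ (sg s, cl s) = m
      · obtain ⟨i, k⟩ := k
        exact (x1 m i k).trans (r1 _ _ ((q1 i m k).trans h))
      · exact (x2 m k).trans h⟩
  obtain ⟨r, hr, j, hj₀, K, act, top, rel, a1, a2, a3, a4⟩ := exists_sys (CC.clo I) hF
  let Re : I → List O1 × I → Prop := fun i m => ∃ s a b c, a < b ∧ b < c ∧
    f (y a) (y b) (y c) s = i ∧ ((lst (sg s)).map ![a, b, c], cl s) = m
  have k1 : ∀ i m m', Re i m → Re i m' → m = m' := by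
    rintro _ _ _ ⟨s, a, b, c, u1, u2, u3, u4⟩ ⟨t, a', b', c', w1, w2, w3, w4⟩
    have := ((H _ _ _ _ _ _ u1 u2 w1 w2).2 s t).1 (u3.trans w3.symm)
    rw [← u4, ← w4, this.1, this.2]
  have k2 : ∀ i i' m, Re i m → Re i' m → i = i' := by
    rintro _ _ _ ⟨s, a, b, c, u1, u2, u3, u4⟩ ⟨t, a', b', c', w1, w2, w3, w4⟩
    have := Prod.ext_iff.1 (u4.trans w4.symm)
    rw [← u3, ← w3]
    exact ((H _ _ _ _ _ _ u1 u2 w1 w2).2 s t).2 ⟨this.2, this.1⟩
  obtain ⟨X₀, hX₀⟩ := link_unc (x := fun l : List O1 => if l = [] then r else ⊤)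
    ((countable_singleton []).mono fun l hl => by_contra fun h => hl (if_neg h))
  have x0 : cur X₀ [] = r := (congrFun hX₀ []).trans (if_pos rfl)
  obtain ⟨q₀, q1, -⟩ := link_tr k1 k2 X₀ ⊤
  obtain ⟨V, v1, v2, v3⟩ := tree (CC.clo I) (H := K × CC (List O1 × I)) (q₀ := q₀)
    (act := fun h q => act h.1 (cur h.2) ∧ h.2 ≤ X₀ ∧
      ∀ i m v, Re i m → h.2.f m = some v → q.f i = some v) (top := fun h => top h.1)
    (rel := fun h h' => rel h.1 h'.1 ∧ h'.2 ≤ h.2)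
    (fun h q q' ⟨a, b, c⟩ k => ⟨a, b, fun i m v u w => k _ _ (c i m v u w)⟩)
    (fun h h' k => a2 _ _ k.1) fun C c1 c2 q hq c3 β => by
      have := c1.to_subtype
      obtain ⟨d, hd⟩ := (CC.clo _).chain (fun o : Option C => o.elim X₀ fun c => c.1.2) (by
        rintro (_ | a) (_ | b)
        · exact Or.inl le_rfl
        · exact Or.inr (c3 _ b.2).2.1
        · exact Or.inl (c3 _ a.2).2.1
        · by_cases k : a.1 = b.1
          · exact Or.inl (congrArg Prod.snd k).le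
          · exact (c2 a.2 b.2 k).symm.imp And.right And.right)
      obtain ⟨X, x1, x2⟩ := link_tr (fun m i i' => k2 i i' m) (fun m m' i => k1 i m m') q d
      have x3 : ∀ X', d ≤ X' → (∀ i m v, Re i m → X'.f m = some v → q.f i = some v) → X ≤ X' :=
        fun X' u w m v h => by
          by_cases k : ∃ i, Re i m
          · obtain ⟨i, k⟩ := k
            exact (x1 m i k).trans (w i m v k h)
          · exact (x2 m k).trans (u m v h)
      have x4 : X ≤ X₀ := x3 _ (hd none) fun i m v u w => hq _ _ ((q1 i m u).trans w)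
      have x5 : ∀ h ∈ C, X ≤ h.2 := fun h k => x3 _ (hd (some ⟨h, k⟩)) (c3 h k).2.2
      obtain ⟨x', y1, y2, h, y3, y4, y5⟩ := a4 (Prod.fst '' C) (c1.image _) (by
        rintro _ ⟨a, ha, rfl⟩ _ ⟨b, hb, rfl⟩ k
        exact (c2 ha hb fun e => k (congrArg _ e)).imp And.left And.left) (cur X) (cur_bd X)
        (x0 ▸ cur_le.2 x4 []) (by
          rintro _ ⟨a, ha, rfl⟩
          exact a1 _ _ _ (c3 a ha).1 (cur_le.2 (x5 a ha))) β
      obtain ⟨X', rfl⟩ := bd_unc y2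
      rw [cur_le] at y1
      obtain ⟨q', z1, z2⟩ := link_tr k1 k2 X' q
      refine ⟨q', fun i v u => ?_, (h, X'), ⟨y3, y1.trans x4, fun i m v u w => (z1 i m u).trans w⟩,
        y4, fun h' k => ⟨y5 _ ⟨h', k, rfl⟩, y1.trans (x5 h' k)⟩⟩
      by_cases k : ∃ m, Re i m
      · obtain ⟨m, k⟩ := k
        exact (z1 i m k).trans (y1 _ _ ((x1 m i k).trans u))
      · exact (z2 i k).trans u
  refine ⟨y, q₀, j, V, hy, fun i v h => ?_, by simpa using hj₀, v1, v2, fun a b c q h1 h2 u1 u2 u3 => ?_⟩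
  · obtain ⟨n, rfl⟩ := he i (by simp [h])
    rw [q1 _ ([], cl (.base n)) ⟨.base n, _, _, _, t1, t2, f1 _ _ _ n, by rw [s0]; rfl⟩]
    exact (x0.trans_le hr) _ _ ((hp₀ _ _ ⟨n, rfl, rfl⟩).trans h)
  obtain ⟨h₁, h₂, h₃, rfl, rfl, rfl, w1, w2, w3, r1, r2, r3⟩ := v3 a b c q h1 h2 u1 u2 u3
  obtain ⟨j', hj, r', b1, b2, b3⟩ := a3 _ _ _ (cur h₃.2) r1.1 r2.1 r3.1 (x0 ▸ cur_le.2 w3.2.1 [])
    (a1 _ _ _ w1.1 (cur_le.2 r2.2)) (a1 _ _ _ w2.1 (cur_le.2 r3.2)) w3.1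
  obtain ⟨r'', c1, c2, _, c3⟩ := (H _ _ _ _ _ _ t1 t2 h1 h2).1 (fun s => r'.f (φ s), j'.1)
    ⟨r', fun s => by rw [hφ], hφ ▸ b1, j'.2, b2⟩
  refine ⟨j', hj, hm _ _ _ _ _ _ c3 fun i v h => ?_⟩
  obtain ⟨s, rfl⟩ := c2 i (by simp [h])
  have := b3 s v ((c1 s).symm.trans h)
  rw [cube_eq] at this
  exact w3.2.2 _ _ v ⟨s, _, _, _, h1, h2, rfl, rfl⟩ this

end Pool.Agent.Lib.MP_f42089_lc
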