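import Pool.Agent.Lib.MP_f42089_lc.Defs
import Pool.Agent.Lib.Common.Forcing.Model

/-! Names and density arguments for countably closed forcing. -/

namespace Pool.Agent.Lib.MP_f42089_lc

open Set Common.Forcing

section

variable {P : Type} [Preorder P]

/-- Names of natural numbers. -/
noncomputable abbrev nn (k : ℕ) : Name P := oc (k : Ordinal.{0})

/-- Names of countable ordinals. -/
noncomputable abbrev on (a : O1) : Name P := oc (Ordinal.ToType.toOrd a).1

theorem feq_on {a b : O1} {q : P} (h : Feq (on a) (on b) q) : a = b :=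
  Ordinal.ToType.mk.symm.injective (Subtype.ext (feq_oc_iff.1 h))

theorem feq_nn {a b : ℕ} {q : P} (h : Feq (nn a) (nn b) q) : a = b :=
  Nat.cast_injective (R := Ordinal.{0}) (feq_oc_iff.1 h)

/-- The name of an enumeration. -/
noncomputable def enum (A : ℕ → Name P) : Name P := fam fun n => op (nn n) (A n)

/-- The name of a map on the countable ordinals. -/
noncomputable def mp (A : O1 → Name P) : Name P := fam fun a => op (on a) (A a)

/-- The name of a triple. -/
def tri (σ τ ρ : Name P) : Name P := fam fun i : Fin [σ, τ, ρ].length => [σ, τ, ρ][i]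

/-- `φ` is single-valued. -/
def Fun (φ : Name P) (q : P) : Prop :=
  ∀ a ρ ρ', ∀ r ≤ q, Fmem (op a ρ) φ r → Fmem (op a ρ') φ r → Feq ρ ρ' r

theorem dense_miss (hP : Clo P) {A : O1 → Name P} (hA : ∀ a b q, Feq (A a) (A b) q → a = b)
    {V : O1 → P → Prop} {φ : Name P} {q : P} (h1 : Fun φ q)
    (h2 : ∀ r ≤ q, ∀ β, ∃ s ≤ r, ∃ a, β < a ∧ V a s) :
    ∃ r ≤ q, ∃ a, V a r ∧ ∀ n, Neg (Fmem (op (nn n) (A a)) φ) r := by
  obtain ⟨a₀, -⟩ := O1.bdd countable_empty
  obtain ⟨q₁, a1, a2⟩ := hP.meet (p := q) (D := fun (n : ℕ) r => ∃ a, Fmem (op (nn n) (A a)) φ r ∨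
      Neg (fun t => ∃ a', Fmem (op (nn n) (A a')) φ t) r) fun n r _ =>
      let ⟨t, c, d⟩ := exists_decide (fun t => ∃ a', Fmem (op (nn n) (A a')) φ t) r
      ⟨t, c, d.elim (fun ⟨a, e⟩ => ⟨a, Or.inl e⟩) fun e => ⟨a₀, Or.inr e⟩⟩
  choose s s1 _ v s3 using a2
  obtain ⟨β, hβ⟩ := O1.bdd (countable_range v)
  obtain ⟨r, c, a, d, e⟩ := h2 q₁ a1 β
  refine ⟨r, c.trans a1, a, e, fun n t ht h3 => ?_⟩
  have h4 : t ≤ s n := ht.trans (c.trans (s1 n))
  rcases s3 n with k | k
  · obtain rfl := hA _ _ _ (h1 _ _ _ t (ht.trans (c.trans a1)) h3 (k.mono h4))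
    exact (hβ _ ⟨n, rfl⟩).not_gt d
  · exact k t h4 ⟨a, h3⟩

end

open Classical in
/-- Filling in countably many values. -/
noncomputable def CC.fill {I : Type} (p : CC I) (S : Set I) (hS : S.Countable) (v : I → Bool) :
    CC I :=
  ⟨fun i => if p.f i = none ∧ i ∈ S then some (v i) else p.f i,
    (p.cnt.union hS).mono fun i hi => by
      by_contra h
      simp only [mem_union, mem_ofPred_eq, not_or, not_not] at h
      exact hi ((if_neg fun h' => h.2 h'.2).trans h.1)⟩

theorem CC.fill_le {I : Type} (p : CC I) (S : Set I) (hS : S.Countable) (v : I → Bool) :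
    p.fill S hS v ≤ p := fun i b h => (if_neg fun h' => by simp [h] at h').trans h

theorem CC.fill_eq {I : Type} {p : CC I} {S : Set I} (hS : S.Countable) (v : I → Bool) {i : I}
    (h : p.f i = none) (hi : i ∈ S) : (p.fill S hS v).f i = some (v i) := if_pos ⟨h, hi⟩

theorem CC.fresh {I J : Type} [Countable J] (p : CC I) (e : J → O1 → I)
    (he : ∀ j, Function.Injective (e j)) : ∃ a, ∀ j, p.f (e j a) = none := by
  obtain ⟨a, ha⟩ := O1.bdd (countable_iUnion fun j => p.cnt.preimage_of_injOn (he j).injOn)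
  refine ⟨a, fun j => ?_⟩
  by_contra h
  exact lt_irrefl a (ha a (mem_iUnion.2 ⟨j, h⟩))

variable {Y : Type}

/-- The coordinates. -/
abbrev Ix (Y : Type) : Type := (Y × O1) ⊕ (O1 × ℕ)

/-- The generic subsets of the first uncountable ordinal. -/
noncomputable def gn (y : Y) : Name (CC (Ix Y)) :=
  ⟨O1, on, fun a q => q.f (.inl (y, a)) = some true⟩

/-- The reals written on the generic object. -/
noncomputable def rl (ξ : O1) : Name (CC (Ix Y)) :=
  ⟨ℕ, nn, fun n q => q.f (.inr (ξ, n)) = some true⟩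

theorem feq_gn {y y' : Y} {q : CC (Ix Y)} (h : Feq (gn y) (gn y') q) : y = y' := by
  classical
  by_contra hne
  obtain ⟨a, ha⟩ := q.fresh (fun (b : Bool) a => (.inl (cond b y y', a) : Ix Y))
    fun _ _ _ e => by simpa using e
  have hS : ({.inl (y, a), .inl (y', a)} : Set (Ix Y)).Countable := (toFinite _).countable
  have h1 := CC.fill_eq hS (fun i => decide (i = .inl (y, a))) (ha true) (by simp)
  have h2 := CC.fill_eq hS (fun i => decide (i = .inl (y, a))) (ha false) (by simp)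
  have h3 := q.fill_le _ hS fun i => decide (i = .inl (y, a))
  have h4 : Fmem (on a) (gn y) _ := Fmem.intro a (h1.trans (by simp)) (Feq.refl _ _)
  obtain ⟨r, b, a', ⟨s, c, c'⟩, d⟩ := h4.congr_right (h.mono h3) _ le_rfl
  obtain rfl : a = a' := feq_on d
  have := (b _ _ h2).symm.trans (c _ _ c')
  simp [Ne.symm hne] at this

theorem dense_real {σ : Name (CC (Ix Y))} {q : CC (Ix Y)} (h : Fsub σ (oc Ordinal.omega0) q) :
    ∃ r ≤ q, ∃ ξ, Feq σ (rl ξ) r := by
  classical
  obtain ⟨q₁, a1, a2⟩ := (CC.clo _).meet (p := q) (D := fun (n : ℕ) r => Fmem (nn n) σ r ∨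
      Neg (Fmem (nn n) σ) r) fun n r _ => exists_decide _ r
  have a3 : ∀ n, Fmem (nn n) σ q₁ ∨ Neg (Fmem (nn n) σ) q₁ := fun n =>
    let ⟨_, b, _, c⟩ := a2 n
    c.imp (fun h => h.mono b) fun h => h.mono b
  obtain ⟨ξ, hξ⟩ := q₁.fresh (fun (n : ℕ) a => (.inr (a, n) : Ix Y)) fun _ _ _ e => by simpa using e
  have hS : (range fun n : ℕ => (.inr (ξ, n) : Ix Y)).Countable := countable_range _
  let v : Ix Y → Bool := Sum.elim (fun _ => true) fun i => decide (Fmem (nn i.2) σ q₁)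
  have h1 : ∀ n, (q₁.fill _ hS v).f (.inr (ξ, n)) = some (decide (Fmem (nn n) σ q₁)) := fun n =>
    CC.fill_eq hS v (hξ n) ⟨n, rfl⟩
  have h2 := q₁.fill_le _ hS v
  refine ⟨_, h2.trans a1, ξ, Feq.ext (fun ρ t ht hm => Fmem.reg fun u hu => ?_)
    (fsub_of_act fun n t ht ⟨s, hs, e⟩ => ?_)⟩
  · obtain ⟨s, b, a, c, d⟩ := (h ρ t (ht.trans (h2.trans a1)) hm).oc_elim hu
    obtain ⟨n, rfl⟩ := Ordinal.lt_omega0.1 c
    have b' := b.trans (hu.trans ht)
    refine ⟨s, b, Fmem.intro n (b' _ _ ((h1 n).trans ?_)) d⟩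
    rw [decide_eq_true ((a3 n).resolve_right fun k =>
      k s (b'.trans h2) ((hm.mono (b.trans hu)).congr_left d))]
  · have := (ht _ _ (h1 n)).symm.trans (hs _ _ e)
    exact (of_decide_eq_true (Option.some.inj this)).mono (ht.trans h2)

end Pool.Agent.Lib.MP_f42089_lc
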