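import Pool.Agent.Lib.Common.Forcing.Defs

/-! Cardinality and colourings inside a transitive set. -/

namespace Pool.Agent.Lib.MP_f42089_lc

open ZFSet in
/-- In `M`, `|A| ≤ |B|`. -/
def LeIn (M : ZFSet.{0}) (A : Set ZFSet.{0}) (B : ZFSet.{0}) : Prop :=
  ∃ f ∈ M, (∀ b a a', pair b a ∈ f → pair b a' ∈ f → a = a') ∧ ∀ a ∈ A, ∃ b ∈ B, pair b a ∈ f

/-- `w` is the least ordinal that is uncountable in `M`. -/
def IsOmegaOne (M w : ZFSet.{0}) : Prop :=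
  w ∈ M ∧ w.IsOrdinal ∧ ¬ LeIn M w ZFSet.omega ∧ ∀ a ∈ w, LeIn M a ZFSet.omega

/-- `c` gives the colour `j` to the set `{x, y, z}`. -/
def Has (c x y z : ZFSet.{0}) (j : ℕ) : Prop :=
  ZFSet.pair {x, y, z} (j : Ordinal.{0}).toZFSet ∈ c

end Pool.Agent.Lib.MP_f42089_lc
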