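import Pool.Agent.Lib.MP_f42089_lc.Link
import Pool.Agent.Lib.MP_f42089_lc.Nm
import Pool.Agent.Lib.MP_f42089_lc.Stmt

/-! The generic extension. -/

namespace Pool.Agent.Lib.MP_f42089_lc

open Set Filter Common.Forcing

section

variable {P : Type} [Preorder P]

/-- The tasks that do not depend on the forcing. -/
structure Rich (g : Gen P) : Prop where
  m1 : oc (Ordinal.omega 1) ∈ g.N
  jf : g.Meets fun l S q => ∃ a ∈ S, ∃ ρ ∈ S, ∃ ρ' ∈ S, Fmem (op a ρ) (l.getD 0 emp) q ∧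
    Fmem (op a ρ') (l.getD 0 emp) q ∧ Neg (Feq ρ ρ') q
  cnt : g.Meets fun l S _ => ∀ a : O1, l = [on a] →
    ∃ e : ℕ → O1, Iio a ⊆ range e ∧ enum (fun n => on (e n)) ∈ S
  jc : g.Meets fun l S q => ∃ a : O1, on a ∈ S ∧ Fmem (op (on a) (l.getD 0 emp)) (l.getD 1 emp) q
  jm : g.Meets fun l S q => ∃ σ ∈ S, Fmem σ (l.getD 1 emp) q ∧
    ∀ n, Neg (Fmem (op (nn n) σ) (l.getD 0 emp)) q

variable {g : Gen P}

theorem ev_of {u : P → Prop} {n : ℕ} (h : ∀ q ≤ g.h n, u q) : ∀ᶠ q in g.fil, u q := ⟨n, h⟩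

theorem of_dense {W : Job P} (hW : g.Meets W) {l : List (Name P)} (hl : ∀ x ∈ l, x ∈ g.N)
    (hd : ∀ᶠ q in g.fil, ∃ r ≤ q, ∃ S : Set (Name P), S.Countable ∧ W l S r) :
    ∃ n, ∃ S ⊆ g.N, W l S (g.h n) := by
  obtain ⟨n, h | h⟩ := hW l hl
  · exact ⟨n, h⟩
  · obtain ⟨q, h1, r, a, S, b, c⟩ := ((ev_of (u := (· ≤ g.h n)) fun _ h => h).and hd).exists
    exact absurd c (h r (a.trans h1) S b)

theorem countable_enum {A : ℕ → Name P} (h : enum A ∈ g.N) {S : Set ZFSet.{0}}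
    (hS : ∀ x ∈ S, ∃ n, g.π (A n) = x) : LeIn g.M S ZFSet.omega := by
  have key : ∀ x, x ∈ g.π (enum A) ↔
      ∃ n : ℕ, ((n : Ordinal.{0}).toZFSet).pair (g.π (A n)) = x := fun x => by
    rw [enum, Gen.mem_π_fam h (Gen.fam_kids h)]
    exact exists_congr fun n => by
      rw [Gen.π_op (Gen.nat_mem n) (Gen.of_op_mem (Gen.fam_kids h n)).2, Gen.π_nat]
  refine ⟨_, Gen.π_mem_M h, fun b a a' h1 h2 => ?_, fun x hx => ?_⟩
  · obtain ⟨n, h3⟩ := (key _).1 h1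
    obtain ⟨m, h4⟩ := (key _).1 h2
    rw [ZFSet.pair_inj] at h3 h4
    rw [← h3.2, ← h4.2, Nat.cast_injective (R := Ordinal.{0})
      (Ordinal.toZFSet_injective (h3.1.trans h4.1.symm))]
  · obtain ⟨n, rfl⟩ := hS x hx
    exact ⟨_, mem_omega_iff.2 ⟨n, rfl⟩, (key _).2 ⟨n, rfl⟩⟩

theorem Rich.mem_w (h : Rich g) {x : ZFSet.{0}} :
    x ∈ g.π (oc (Ordinal.omega 1)) ↔ ∃ a : O1, on a ∈ g.N ∧ g.π (on a) = x := by
  constructor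
  · intro hx
    obtain ⟨a, h1, h2⟩ := Gen.exists_of_mem_π_oc h.m1 hx
    exact ⟨Ordinal.ToType.mk ⟨a, h1⟩, by
      simpa only [on, Ordinal.ToType.toOrd, OrderIso.symm_apply_apply] using h2⟩
  · rintro ⟨a, h1, rfl⟩
    exact (Gen.π_oc_mem_iff h1 h.m1).2 (Ordinal.ToType.toOrd a).2

theorem Rich.ev_fun (h : Rich g) {φ : Name P} (hφ : φ ∈ g.N)
    (hf : ∀ b a a', ZFSet.pair b a ∈ g.π φ → ZFSet.pair b a' ∈ g.π φ → a = a') :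
    ∀ᶠ q in g.fil, Fun φ q := by
  obtain ⟨n, ⟨S, hS, a, a1, ρ, a2, ρ', a3, a4, a5, a6⟩ | h1⟩ := h.jf [φ] (Gen.l1 hφ)
  · exact (PreGen.ev_not_neg ((Gen.π_eq_iff (hS a2) (hS a3)).1 (hf _ _ _
      ((Gen.pair_mem_iff (hS a1) (hS a2) hφ).2 (ev_of fun q hq => a4.mono hq))
      ((Gen.pair_mem_iff (hS a1) (hS a3) hφ).2 (ev_of fun q hq => a5.mono hq))))
      (ev_of fun q hq => a6.mono hq)).elim
  · refine ev_of (n := n) fun q hq a ρ ρ' r hr h2 h3 => Feq.reg (dn_of_not_neg fun t ht h4 => ?_)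
    exact h1 t (ht.trans (hr.trans hq)) {a, ρ, ρ'} (toFinite _).countable
      ⟨a, by simp, ρ, by simp, ρ', by simp, h2.mono ht, h3.mono ht, h4⟩

theorem Rich.unc (h : Rich g) (hP : Clo P) {A : O1 → Name P}
    (hA : ∀ a b q, Feq (A a) (A b) q → a = b) {τ : Name P} (hτ : τ ∈ g.N)
    (hV : ∀ᶠ q in g.fil, ∀ β, ∃ s ≤ q, ∃ a, β < a ∧ Fmem (A a) τ s) :
    ¬ LeIn g.M (g.π τ) ZFSet.omega := by
  rintro ⟨f, hf, h1, h2⟩
  obtain ⟨φ, hφ, rfl⟩ := Gen.mem_M.1 hf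
  obtain ⟨n, S, hS, σ, a1, a2, a3⟩ := of_dense h.jm (Gen.l2 hφ hτ) (by
    filter_upwards [h.ev_fun hφ h1, PreGen.ev_below hV] with q b1 b2
    obtain ⟨r, c, a, d⟩ := dense_miss hP hA b1 b2
    exact ⟨r, c, {A a}, countable_singleton _, A a, rfl, d⟩)
  obtain ⟨b, b1, b2⟩ := h2 (g.π σ) ((Gen.π_mem_iff (hS a1) hτ).2 (ev_of fun q hq => a2.mono hq))
  obtain ⟨k, rfl⟩ := mem_omega_iff.1 b1
  rw [← Gen.π_nat (g := g), Gen.pair_mem_iff (Gen.nat_mem k) (hS a1) hφ] at b2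
  exact PreGen.ev_not_neg b2 (ev_of fun q hq => (a3 k).mono hq)

theorem Rich.omegaOne (h : Rich g) (hP : Clo P) :
    IsOmegaOne g.M (g.π (oc (Ordinal.omega 1))) := by
  refine ⟨Gen.π_mem_M h.m1, Gen.isOrdinal_π_oc _ h.m1, h.unc hP (fun _ _ _ => feq_on) h.m1
    (Eventually.of_forall fun q β => ?_), fun x hx => ?_⟩
  · obtain ⟨a, ha⟩ := O1.bdd (countable_singleton β)
    exact ⟨q, le_rfl, a, ha β rfl, fmem_oc_of_lt (Ordinal.ToType.toOrd a).2 q⟩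
  · obtain ⟨a, h1, rfl⟩ := h.mem_w.1 hx
    obtain ⟨e, he⟩ := ((O1.countable_Iio a).insert a).exists_eq_range (insert_nonempty _ _)
    obtain ⟨n, S, hS, h0⟩ := of_dense h.cnt (Gen.l1 h1) (Eventually.of_forall fun q =>
      ⟨q, le_rfl, {enum fun n => on (e n)}, countable_singleton _, fun b hb => ⟨e, by
        rw [← feq_on (a := a) (b := b) (q := q) ((List.cons.inj hb).1 ▸ Feq.refl _ _), ← he]
        exact subset_insert _ _, rfl⟩⟩)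
    obtain ⟨e, h2, h3⟩ := h0 a rfl
    refine countable_enum (hS h3) fun y hy => ?_
    obtain ⟨b, h4, rfl⟩ := h.mem_w.1 ((Gen.isOrdinal_π_oc _ h.m1).isTransitive.mem_trans hy hx)
    rw [SetLike.mem_coe, Gen.π_oc_mem_iff h4 h1] at hy
    obtain ⟨n, rfl⟩ := h2 (Ordinal.ToType.mk.symm.lt_iff_lt.1 hy)
    exact ⟨n, rfl⟩

theorem Rich.lein (h : Rich g) {B : O1 → Name P} (hB : mp B ∈ g.N) {A : Set ZFSet.{0}}
    (hA : ∀ x ∈ A, ∃ σ ∈ g.N, g.π σ = x ∧ ∀ᶠ q in g.fil, ∃ r ≤ q, ∃ a, Feq σ (B a) r) :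
    LeIn g.M A (g.π (oc (Ordinal.omega 1))) := by
  refine ⟨_, Gen.π_mem_M hB, fun b a a' h3 h4 => ?_, fun x hx => ?_⟩
  · obtain ⟨α, a1, a2, -⟩ := Gen.exists_child hB h3
    obtain ⟨α', b1, b2, -⟩ := Gen.exists_child hB h4
    obtain ⟨a4, a5⟩ := Gen.of_op_mem a1
    obtain ⟨b4, b5⟩ := Gen.of_op_mem b1
    have a6 := ZFSet.pair_inj.1 ((Gen.π_op a4 a5).symm.trans a2)
    have b6 := ZFSet.pair_inj.1 ((Gen.π_op b4 b5).symm.trans b2)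
    obtain ⟨q, c⟩ := ((Gen.π_eq_iff a4 b4).1 (a6.1.trans b6.1.symm)).exists
    obtain rfl : α = α' := feq_on c
    exact a6.2.symm.trans b6.2
  · obtain ⟨σ, a, rfl, b⟩ := hA x hx
    obtain ⟨n, S, hS, α, a1, a2⟩ := of_dense h.jc (Gen.l2 a hB) (b.mono fun q ⟨r, c, α, d⟩ =>
      ⟨r, c, {on α}, countable_singleton _, α, rfl, fmem_fam α (feq_op (Feq.refl _ _) d)⟩)
    exact ⟨_, h.mem_w.2 ⟨α, hS a1, rfl⟩,
      (Gen.pair_mem_iff (hS a1) a hB).2 (ev_of fun q hq => a2.mono hq)⟩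

theorem has_iff {σ τ ρ c : Name P} (hσ : σ ∈ g.N) (hτ : τ ∈ g.N) (hρ : ρ ∈ g.N) (hc : c ∈ g.N)
    (j : ℕ) : Has (g.π c) (g.π σ) (g.π τ) (g.π ρ) j ↔
      ∀ᶠ q in g.fil, Fmem (op (tri σ τ ρ) (nn j)) c q := by
  have h1 : tri σ τ ρ ∈ g.N := g.fam_mem _ (Gen.l3 hσ hτ hρ)
  have h2 : g.π (tri σ τ ρ) = {g.π σ, g.π τ, g.π ρ} := by
    ext x
    rw [tri, Gen.mem_π_fam h1 (Gen.fam_kids h1)]
    simp [Fin.exists_fin_succ, eq_comm]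
  rw [Has, ← h2, ← Gen.π_nat (g := g), Gen.pair_mem_iff h1 (Gen.nat_mem j) hc]

end

theorem has_swap {c x y z : ZFSet.{0}} {j : ℕ} (h : Has c x y z j) : Has c y x z j := by
  have : ({x, y, z} : ZFSet.{0}) = {y, x, z} := by
    ext
    simp [or_left_comm]
  rwa [Has, ← this]

theorem has_swap' {c x y z : ZFSet.{0}} {j : ℕ} (h : Has c x y z j) : Has c x z y j := by
  have : ({x, y, z} : ZFSet.{0}) = {x, z, y} := by
    ext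
    simp [or_comm]
  rwa [Has, ← this]

variable {Y : Type}

/-- The condition forces the colour `j` on a triple of generic sets. -/
def Wn (c : Name (CC (Ix Y))) (a b d : Y) (q : CC (Ix Y)) {k : ℕ} (j : Fin k) : Prop :=
  Fmem (op (tri (gn a) (gn b) (gn d)) (nn j)) c q

theorem Rich.gn_sub {g : Gen (CC (Ix Y))} (h : Rich g) {y : Y} (hy : gn y ∈ g.N) :
    g.π (gn y) ⊆ g.π (oc (Ordinal.omega 1)) := fun _ hx =>
  let ⟨a, b, c, _⟩ := Gen.exists_child hy hx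
  h.mem_w.2 ⟨a, b, c⟩

theorem gn_ne {g : Gen (CC (Ix Y))} {y y' : Y} (hy : gn y ∈ g.N) (hy' : gn y' ∈ g.N)
    (h : y ≠ y') : g.π (gn y) ≠ g.π (gn y') := fun e =>
  let ⟨_, c⟩ := ((Gen.π_eq_iff hy hy').1 e).exists
  h (feq_gn c)

theorem exists_model : ∃ M w : ZFSet.{0}, Common.Forcing.IsCTM M ∧ IsOmegaOne M w ∧
    LeIn M {x | x ∈ M ∧ x ⊆ ZFSet.omega} w ∧ ∀ k : ℕ, ∀ c ∈ M,
      (∀ x ∈ M, ∀ y ∈ M, ∀ z ∈ M, x ⊆ w → y ⊆ w → z ⊆ w → x ≠ y → x ≠ z → y ≠ z →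
        ∃! j, j < k ∧ Has c x y z j) →
      ∃ H ∈ M, (∀ x ∈ H, x ⊆ w) ∧ LeIn M H w ∧ ¬ LeIn M H ZFSet.omega ∧
        ∃ S : Finset ℕ, S.card ≤ bnd k ∧ ∀ x ∈ H, ∀ y ∈ H, ∀ z ∈ H, x ≠ y → x ≠ z → y ≠ z →
          ∀ j < k, Has c x y z j → j ∈ S := by
  obtain ⟨Y, _, hY⟩ := core
  obtain ⟨a₀, -⟩ := O1.bdd countable_empty
  have : Nonempty (Ix Y) := ⟨.inr (a₀, 0)⟩
  let J : ℕ × ℕ → Job (CC (Ix Y)) := fun i => match i.1 with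
    | 0 => fun _ S _ => oc (Ordinal.omega 1) ∈ S ∧ mp rl ∈ S
    | 1 => fun l S q => ∃ a ∈ S, ∃ ρ ∈ S, ∃ ρ' ∈ S, Fmem (op a ρ) (l.getD 0 emp) q ∧
        Fmem (op a ρ') (l.getD 0 emp) q ∧ Neg (Feq ρ ρ') q
    | 2 => fun l S _ => ∀ a : O1, l = [on a] →
        ∃ e : ℕ → O1, Iio a ⊆ range e ∧ enum (fun n => on (e n)) ∈ S
    | 3 => fun l S q => ∃ a : O1, on a ∈ S ∧ Fmem (op (on a) (l.getD 0 emp)) (l.getD 1 emp) q
    | 4 => fun l S q => ∃ σ ∈ S, Fmem σ (l.getD 1 emp) q ∧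
        ∀ n, Neg (Fmem (op (nn n) σ) (l.getD 0 emp)) q
    | 5 => fun l S q => ∃ a b d : Y, a < b ∧ b < d ∧ gn a ∈ S ∧ gn b ∈ S ∧ gn d ∈ S ∧
        Neg (fun t => ∃ j : Fin i.2, Wn (l.getD 0 emp) a b d t j) q
    | _ => fun l S q => ∃ (y : O1 → Y) (j : Finset (Fin i.2)) (V : O1 → CC (Ix Y) → Prop),
        (⟨O1, fun a => gn (y a), V⟩ ∈ S ∧ mp (fun a => gn (y a)) ∈ S) ∧ StrictMono y ∧
        j.card ≤ bnd i.2 ∧
        (∀ a q q', V a q → q' ≤ q → V a q') ∧ (∀ q' ≤ q, ∀ β, ∃ r ≤ q', ∃ a, β < a ∧ V a r) ∧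
        ∀ a b c q, a < b → b < c → V a q → V b q → V c q →
          ∃ j' ∈ j, Wn (l.getD 0 emp) (y a) (y b) (y c) q j'
  obtain ⟨g, -, hg⟩ := exists_gen (range J) (countable_range _) ⊤
  have hJ : ∀ i, g.Meets (J i) := fun i => hg _ ⟨i, rfl⟩
  obtain ⟨-, S₀, hS₀, m1, m2⟩ := of_dense (hJ (0, 0)) (l := []) (by simp) (Eventually.of_forall fun q =>
    ⟨q, le_rfl, {oc (Ordinal.omega 1), mp rl}, (toFinite _).countable, by simp, by simp⟩)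
  have h : Rich g := ⟨hS₀ m1, hJ (1, 0), hJ (2, 0), hJ (3, 0), hJ (4, 0)⟩
  refine ⟨g.M, _, Gen.isCTM, h.omegaOne (CC.clo _), h.lein (hS₀ m2) fun x hx => ?_,
    fun k c₀ hc₀ hcol => ?_⟩
  · obtain ⟨σ, hσ, rfl⟩ := Gen.mem_M.1 hx.1
    have := hx.2
    rw [← Gen.π_omega (g := g), Gen.π_sub_iff hσ g.omega_mem] at this
    exact ⟨σ, hσ, rfl, this.mono fun q => dense_real⟩
  obtain ⟨c, hc, rfl⟩ := Gen.mem_M.1 hc₀
  have hcol' : ∀ a b d : Y, a < b → b < d → gn a ∈ g.N → gn b ∈ g.N → gn d ∈ g.N →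
      ∃! j, j < k ∧ ∀ᶠ q in g.fil, Fmem (op (tri (gn a) (gn b) (gn d)) (nn j)) c q :=
    fun a b d h1 h2 ha hb hd => by
      simpa only [has_iff ha hb hd hc] using hcol _ (Gen.π_mem_M ha) _ (Gen.π_mem_M hb) _
        (Gen.π_mem_M hd) (h.gn_sub ha) (h.gn_sub hb) (h.gn_sub hd) (gn_ne ha hb h1.ne)
        (gn_ne ha hd (h1.trans h2).ne) (gn_ne hb hd h2.ne)
  have hden : ∀ᶠ p in g.fil, ∀ a b d, a < b → b < d → ∀ q ≤ p, ∃ r ≤ q,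
      ∃ j : Fin k, Wn c a b d r j := by
    obtain ⟨n, ⟨S, hS, a, b, d, h1, h2, ha, hb, hd, h3⟩ | h3⟩ := hJ (5, k) [c] (Gen.l1 hc)
    · obtain ⟨j, ⟨h4, h5⟩, -⟩ := hcol' a b d h1 h2 (hS ha) (hS hb) (hS hd)
      exact (PreGen.ev_not_neg (h5.mono fun q hq => ⟨⟨j, h4⟩, hq⟩)
        (ev_of fun q hq => h3.mono hq)).elim
    · refine ev_of (n := n) fun p hp a b d h1 h2 => dn_of_not_neg fun q hq h4 => ?_
      exact h3 q (hq.trans hp) {gn a, gn b, gn d} (toFinite _).countable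
        ⟨a, b, d, h1, h2, by simp, by simp, by simp, h4⟩
  obtain ⟨n, S, hS, y, j, V, ⟨m3, m4⟩, hy, hj, hV, hu, hW⟩ := of_dense (hJ (6, k)) (Gen.l1 hc)
    (hden.mono fun p hp =>
      let ⟨y, q₀, j, V, a1, a2, a3⟩ := hY (Ix Y) k (fun a b d q j => Wn c a b d q j) p
        (fun _ _ _ _ _ _ => Fmem.mono) hp
      ⟨q₀, a2, {⟨O1, fun a => gn (y a), V⟩, mp fun a => gn (y a)}, (toFinite _).countable,
        y, j, V, ⟨by simp, by simp⟩, a1, a3⟩)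
  have hH : ∀ x ∈ g.π ⟨O1, fun a => gn (y a), V⟩, ∃ a, gn (y a) ∈ g.N ∧ g.π (gn (y a)) = x ∧
      ∀ᶠ q in g.fil, V a q := fun x hx =>
    let ⟨a, b1, b2, b3⟩ := Gen.exists_child (hS m3) hx
    ⟨a, b1, b2, b3.mono fun _ ⟨_, e1, e2⟩ => hV _ _ _ e2 e1⟩
  refine ⟨_, Gen.π_mem_M (hS m3), fun x hx => ?_, h.lein (hS m4) fun x hx => ?_,
    h.unc (CC.clo _) (fun a b q e => hy.injective (feq_gn e)) (hS m3) (ev_of fun q hq β =>
      let ⟨r, b1, a, b2, b3⟩ := hu q hq β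
      ⟨r, b1, a, b2, Fmem.intro a b3 (Feq.refl _ _)⟩), j.image Fin.val,
      Finset.card_image_le.trans hj, fun x hx x' hx' x'' hx'' => ?_⟩
  · obtain ⟨a, b, rfl, -⟩ := hH x hx
    exact h.gn_sub b
  · obtain ⟨a, b, rfl, -⟩ := hH x hx
    exact ⟨_, b, rfl, Eventually.of_forall fun q => ⟨q, le_rfl, a, Feq.refl _ _⟩⟩
  intro n1 n2 n3 i hi h3
  have key : ∀ {a b d}, a < b → b < d → gn (y a) ∈ g.N → gn (y b) ∈ g.N → gn (y d) ∈ g.N →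
      (∀ᶠ q in g.fil, V a q) → (∀ᶠ q in g.fil, V b q) → (∀ᶠ q in g.fil, V d q) →
      Has (g.π c) (g.π (gn (y a))) (g.π (gn (y b))) (g.π (gn (y d))) i →
        i ∈ j.image Fin.val :=
    fun {a b d} h1 h2 ha hb hd va vb vd h3 => by
      obtain ⟨m, hm⟩ := va.and (vb.and vd)
      obtain ⟨e1, e2, e3⟩ := hm _ le_rfl
      obtain ⟨j', e4, e5⟩ := hW a b d _ h1 h2 e1 e2 e3
      exact Finset.mem_image.2 ⟨j', e4, (hcol' _ _ _ (hy h1) (hy h2) ha hb hd).unique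
        ⟨j'.2, ev_of fun q hq => e5.mono hq⟩ ⟨hi, (has_iff ha hb hd hc i).1 h3⟩⟩
  obtain ⟨a, a1, rfl, a2⟩ := hH x hx
  obtain ⟨b, b1, rfl, b2⟩ := hH x' hx'
  obtain ⟨d, d1, rfl, d2⟩ := hH x'' hx''
  rcases lt_or_gt_of_ne (fun e : a = b => n1 (by rw [e])) with k1 | k1 <;>
    rcases lt_or_gt_of_ne (fun e : a = d => n2 (by rw [e])) with k2 | k2 <;>
    rcases lt_or_gt_of_ne (fun e : b = d => n3 (by rw [e])) with k3 | k3
  · exact key k1 k3 a1 b1 d1 a2 b2 d2 h3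
  · exact key k2 k3 a1 d1 b1 a2 d2 b2 (has_swap' h3)
  · exact (lt_irrefl _ (k1.trans (k3.trans k2))).elim
  · exact key k2 k1 d1 a1 b1 d2 a2 b2 (has_swap (has_swap' h3))
  · exact key k1 k2 b1 a1 d1 b2 a2 d2 (has_swap h3)
  · exact (lt_irrefl _ (k1.trans (k2.trans k3))).elim
  · exact key k3 k2 b1 d1 a1 b2 d2 a2 (has_swap' (has_swap h3))
  · exact key k3 k1 d1 b1 a1 d2 b2 a2 (has_swap (has_swap' (has_swap h3)))

end Pool.Agent.Lib.MP_f42089_lc
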