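import Pool.Agent.Lib.MP_f42089_lc.Tod
import Pool.Agent.Lib.MP_f42089_lc.Can

/-! Stepping up: colourings of triples that take many colours on every uncountable set. -/

namespace Pool.Agent.Lib.MP_f42089_lc

open Set

theorem unc_chain {X : Type} {A : Set X} {r : X → X → Prop}
    (h : ∀ C ⊆ A, C.Countable → ∃ y ∈ A, y ∉ C ∧ ∀ x ∈ C, r x y ∧ r y x) :
    ∃ B ⊆ A, ¬ B.Countable ∧ B.Pairwise r := by
  obtain ⟨B, hB⟩ := zorn_subset {B | B ⊆ A ∧ B.Pairwise r} fun c h1 h2 =>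
    ⟨⋃₀ c, ⟨sUnion_subset fun B k => (h1 k).1,
      (pairwise_sUnion h2.directedOn).2 fun B k => (h1 k).2⟩, fun B k => subset_sUnion_of_mem k⟩
  refine ⟨B, hB.prop.1, fun k => ?_, hB.prop.2⟩
  obtain ⟨y, a, b, c⟩ := h B hB.prop.1 k
  exact b (hB.le_of_ge (y := insert y B) ⟨insert_subset a hB.prop.1,
    hB.prop.2.insert fun x hx _ => (c x hx).symm⟩ (subset_insert _ _) (.inl rfl))

theorem unc_thin {X : Type} [LinearOrder X] [WellFoundedLT X] {H : Set X} (h : ¬ H.Countable) :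
    ∃ H₀ ⊆ H, ¬ H₀.Countable ∧ ∀ A ⊆ H₀, ¬ A.Countable → ∀ C ⊆ H₀, C.Countable →
      ∃ y ∈ A, ∀ x ∈ C, x < y := by
  obtain ⟨H₀, h1, h2, h3⟩ : ∃ H₀ ⊆ H, ¬ H₀.Countable ∧ ∀ x ∈ H₀, {y ∈ H₀ | y < x}.Countable := by
    by_cases k : {x | ¬ {y ∈ H | y < x}.Countable}.Nonempty
    · obtain ⟨x, a, b⟩ := wellFounded_lt.has_min _ k
      exact ⟨_, sep_subset _ _, a, fun y hy =>
        (not_not.1 fun k' => b y k' hy.2 : {z ∈ H | z < y}.Countable).mono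
          fun z hz => And.intro hz.1.1 hz.2⟩
    · exact ⟨H, subset_rfl, h, fun x _ => not_not.1 fun k' => k ⟨x, k'⟩⟩
  refine ⟨H₀, h1, h2, fun A a1 a2 C c1 c2 => ?_⟩
  by_contra k
  refine a2 ((c2.biUnion fun x hx => (h3 x (c1 hx)).insert x).mono fun y hy => ?_)
  obtain ⟨x, hx, k'⟩ : ∃ x ∈ C, y ≤ x := by
    by_contra k'
    exact k ⟨y, hy, fun x hx => not_le.1 fun k3 => k' ⟨x, hx, k3⟩⟩
  exact mem_biUnion hx (k'.eq_or_lt.imp id fun k3 => ⟨a1 hy, k3⟩)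

theorem split_or_comb {X : Type} (ev : X → O1 → Bool) (A : Set X) :
    (∃ δ, ∃ S : Bool → Set X, (∀ b, S b ⊆ A ∧ ¬ (S b).Countable ∧ ∀ x ∈ S b, ev x δ = b) ∧
      ∀ b b', ∀ x ∈ S b, ∀ y ∈ S b', ∀ c < δ, ev x c = ev y c) ∨
    ∃ β : O1 → Bool, ∀ a, {y ∈ A | ev y a ≠ β a}.Countable := by
  classical
  obtain ⟨β, hβ⟩ : ∃ β : O1 → Bool, ∀ a, β a = decide {y ∈ A | ev y a = false}.Countable :=
    ⟨_, fun _ => rfl⟩
  refine or_iff_not_imp_left.2 fun h => ⟨β, fun a => ?_⟩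
  induction a using WellFoundedLT.induction with
  | ind a ih =>
    have hD : (⋃ c ∈ Iio a, {y ∈ A | ev y c ≠ β c}).Countable := (O1.countable_Iio a).biUnion ih
    obtain ⟨b, hb⟩ : ∃ b, {y ∈ A | ev y a = b ∧ ∀ c < a, ev y c = β c}.Countable := by
      by_contra k
      exact h ⟨a, fun b => {y ∈ A | ev y a = b ∧ ∀ c < a, ev y c = β c},
        fun b => ⟨sep_subset _ _, fun k' => k ⟨b, k'⟩, fun x hx => hx.2.1⟩,
        fun _ _ x hx y hy c hc => (hx.2.2 c hc).trans (hy.2.2 c hc).symm⟩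
    have h1 : {y ∈ A | ev y a = b}.Countable := (hb.union hD).mono fun y hy => by
      by_cases k : ∀ c < a, ev y c = β c
      · exact .inl ⟨hy.1, hy.2, k⟩
      · simp only [not_forall] at k
        obtain ⟨c, k1, k2⟩ := k
        exact .inr (mem_biUnion k1 ⟨hy.1, k2⟩)
    by_cases k : {y ∈ A | ev y a = false}.Countable
    · exact k.mono fun y hy => And.intro hy.1 (by simpa [hβ, k] using hy.2)
    · cases b
      · exact (k h1).elim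
      · exact h1.mono fun y hy => And.intro hy.1 (by simpa [hβ, k] using hy.2)

variable {K : Type} (G : Bool → ℕ → Fin 3 → Bool → K) (f : O1 → O1 → ℕ)

/-- The colour of an ordered triple. -/
noncomputable def col (x y z : O1 → Bool) : K :=
  if dl x y < dl y z then G (x (dl x y)) (f (dl x y) (dl y z)) 0 (y (dl y z))
  else if dl x y < dl x z then G (y (dl x y)) (f (dl x y) (dl x z)) 1 (x (dl x z))
  else G (z (dl x z)) (f (dl x z) (dl x y)) 2 (x (dl x y))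

variable {G f}

theorem col_eq {u v w : O1 → Bool} {a d : O1} (h : a < d) (h1 : Spl u v a) (h2 : Spl u w a)
    (h3 : Spl v w d) : col G f u v w = G (u a) (f a d) 0 (v d) ∧
      col G f v u w = G (u a) (f a d) 1 (v d) ∧ col G f v w u = G (u a) (f a d) 2 (v d) := by
  simp [col, h1.eq, h2.eq, h3.eq, h1.symm.eq, h2.symm.eq, h, h.not_gt]

theorem stepup {X : Type} [LinearOrder X] [WellFoundedLT X] {ev : X → O1 → Bool}
    (hev : Function.Injective ev) (G : Bool → ℕ → Fin 3 → Bool → K) :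
    ∃ c : Finset X → K, ∀ H : Set X, ¬ H.Countable →
      (∃ b, ∀ j, G b j 0 b ∈ c '' {s | ↑s ⊆ H ∧ s.card = 3}) ∨
      ∀ b, ∃ j, ∀ p i, G b j p i ∈ c '' {s | ↑s ⊆ H ∧ s.card = 3} := by
  classical
  obtain ⟨f, hf⟩ := exists_tod
  obtain ⟨c, hc⟩ : ∃ c : Finset X → K, ∀ H : Set X, ∀ x ∈ H, ∀ y ∈ H, ∀ z ∈ H, x < y → y < z →
      col G f (ev x) (ev y) (ev z) ∈ c '' {s | ↑s ⊆ H ∧ s.card = 3} := by
    refine ⟨fun s => if h : s.card = 3 then col G f (ev (s.orderEmbOfFin h 0))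
      (ev (s.orderEmbOfFin h 1)) (ev (s.orderEmbOfFin h 2)) else G true 0 0 true,
      fun H x hx y hy z hz h1 h2 => ?_⟩
    have h3 : ({x, y, z} : Finset X).card = 3 :=
      Finset.card_eq_three.2 ⟨x, y, z, h1.ne, (h1.trans h2).ne, h2.ne, rfl⟩
    refine ⟨{x, y, z}, ⟨by simp [insert_subset_iff, hx, hy, hz], h3⟩, (dif_pos h3).trans ?_⟩
    rw [← Finset.orderEmbOfFin_unique h3 (f := ![x, y, z]) (fun i => by fin_cases i <;> simp)
      (can_sm.2 ⟨h1, h2⟩)]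
    rfl
  refine ⟨c, fun H hH => ?_⟩
  obtain ⟨H₀, a1, a2, a3⟩ := unc_thin hH
  by_cases hcomb : ∃ A ⊆ H₀, ¬ A.Countable ∧ ∃ β : O1 → Bool,
      ∀ a, {y ∈ A | ev y a ≠ β a}.Countable
  · obtain ⟨A, b1, b2, β, b3⟩ := hcomb
    obtain ⟨b, b4⟩ : ∃ b, ¬ {y ∈ A | ev y ≠ β ∧ ev y (dl (ev y) β) = b}.Countable := by
      by_contra k
      simp only [not_exists, not_not] at k
      refine b2 ((((k true).union (k false)).union
        ((countable_singleton β).preimage hev)).mono fun y hy => ?_)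
      by_cases e : ev y = β
      · exact .inr e
      · cases e' : ev y (dl (ev y) β)
        exacts [.inl (.inr ⟨hy, e, e'⟩), .inl (.inl ⟨hy, e, e'⟩)]
    have sp : ∀ y, ev y ≠ β → Spl (ev y) β (dl (ev y) β) := fun y k =>
      let ⟨a, e⟩ := exists_spl k
      e.eq ▸ e
    obtain ⟨B, c1, c2, c3⟩ := unc_chain (A := {y ∈ A | ev y ≠ β ∧ ev y (dl (ev y) β) = b})
      (r := fun x y => x < y → dl (ev x) β < dl (ev y) β) fun C d1 d2 => by
        obtain ⟨γ, hγ⟩ := O1.bdd (d2.image fun x => dl (ev x) β)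
        obtain ⟨y, ⟨e1, e2⟩, e3⟩ := a3 ({y ∈ A | ev y ≠ β ∧ ev y (dl (ev y) β) = b} \
          ⋃ a ∈ Iic γ, {y ∈ A | ev y a ≠ β a}) (fun y hy => b1 hy.1.1) (fun k => b4
            ((k.union ((O1.countable_Iic γ).biUnion fun a _ => b3 a)).mono (subset_sdiff_union _ _)))
          C (fun y hy => b1 (d1 hy).1) d2
        refine ⟨y, e1, fun k => (e3 y k).false, fun x hx => ⟨fun _ => (hγ _ ⟨x, hx, rfl⟩).trans
          (not_le.1 fun k => e2 (mem_biUnion k ⟨e1.1, (sp y e1.2.1).1⟩)),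
          fun k => (k.not_gt (e3 x hx)).elim⟩⟩
    have c4 : ∀ x ∈ B, ∀ y ∈ B, dl (ev x) β < dl (ev y) β → x < y := fun x hx y hy k =>
      (lt_trichotomy x y).elim id fun k' => k'.elim (fun e => (k.ne (e ▸ rfl)).elim)
        fun e => (k.not_gt (c3 hy hx e.ne e)).elim
    have c5 : ¬ ((fun x => dl (ev x) β) '' B).Countable := fun k => c2
      (countable_of_injective_of_countable_image (fun x hx y hy e => by_contra fun k' =>
        (lt_or_gt_of_ne k').elim (fun k3 => (c3 hx hy k' k3).ne e)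
          fun k3 => (c3 hy hx (Ne.symm k') k3).ne' e) k)
    have c6 : ∀ x ∈ B, ∀ y ∈ B, dl (ev x) β < dl (ev y) β → Spl (ev x) (ev y) (dl (ev x) β) :=
      fun x hx y hy k => ⟨(sp y (c1 hy).2.1).2 _ k ▸ (sp x (c1 hx).2.1).1, fun a ha =>
        ((sp x (c1 hx).2.1).2 a ha).trans ((sp y (c1 hy).2.1).2 a (ha.trans k)).symm⟩
    refine .inl ⟨b, fun j => ?_⟩
    obtain ⟨_, ⟨x, hx, rfl⟩, _, ⟨y, hy, rfl⟩, d1, rfl⟩ := hf _ c5 j
    obtain ⟨_, ⟨z, hz, rfl⟩, d2⟩ := O1.unb c5 (dl (ev y) β)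
    have d3 := hc H x (a1 (b1 (c1 hx).1)) y (a1 (b1 (c1 hy).1)) z (a1 (b1 (c1 hz).1))
      (c4 x hx y hy d1) (c4 y hy z hz d2)
    rwa [(col_eq d1 (c6 x hx y hy d1) (c6 x hx z hz (d1.trans d2)) (c6 y hy z hz d2)).1,
      (c1 hx).2.2, (c1 hy).2.2] at d3
  refine .inr fun b => ?_
  obtain ⟨a, S, s1, s2⟩ := (split_or_comb ev H₀).resolve_right fun k =>
    hcomb ⟨H₀, subset_rfl, a2, k⟩
  obtain ⟨d, T, t1, t2⟩ := (split_or_comb ev (S !b)).resolve_right fun k =>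
    hcomb ⟨_, (s1 _).1, (s1 _).2.1, k⟩
  have t3 : ∀ i, T i ⊆ H₀ := fun i => (t1 i).1.trans (s1 _).1
  have pick : ∀ A B C, A ⊆ H₀ → B ⊆ H₀ → C ⊆ H₀ → ¬ A.Countable → ¬ B.Countable →
      ¬ C.Countable → ∃ x ∈ A, ∃ y ∈ B, ∃ z ∈ C, x < y ∧ y < z := fun A B C k1 k2 k3 l1 l2 l3 => by
    obtain ⟨x, hx, -⟩ := a3 A k1 l1 ∅ (empty_subset _) countable_empty
    obtain ⟨y, hy, e⟩ := a3 B k2 l2 {x} (singleton_subset_iff.2 (k1 hx)) (countable_singleton _)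
    obtain ⟨z, hz, e'⟩ := a3 C k3 l3 {y} (singleton_subset_iff.2 (k2 hy)) (countable_singleton _)
    exact ⟨x, hx, y, hy, z, hz, e _ rfl, e' _ rfl⟩
  have u1 : ∀ i, ∀ u ∈ S b, ∀ v ∈ T i, Spl (ev u) (ev v) a := fun i u hu v hv =>
    ⟨by rw [(s1 _).2.2 u hu, (s1 _).2.2 v ((t1 i).1 hv)]; simp, s2 _ _ u hu v ((t1 i).1 hv)⟩
  have u2 : ∀ i, ∀ v ∈ T i, ∀ w ∈ T (!i), Spl (ev v) (ev w) d := fun i v hv w hw =>
    ⟨by rw [(t1 _).2.2 v hv, (t1 _).2.2 w hw]; simp, t2 _ _ v hv w hw⟩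
  have u3 : ∀ i, ∀ u ∈ S b, ∀ v ∈ T i, ∀ w ∈ T (!i), col G f (ev u) (ev v) (ev w) =
      G b (f a d) 0 i ∧ col G f (ev v) (ev u) (ev w) = G b (f a d) 1 i ∧
      col G f (ev v) (ev w) (ev u) = G b (f a d) 2 i := fun i u hu v hv w hw => by
    have e : a < d := not_le.1 fun k => (u2 i v hv w hw).1 (k.eq_or_lt.elim
      (fun e => by rw [e, (s1 _).2.2 v ((t1 _).1 hv), (s1 _).2.2 w ((t1 _).1 hw)])
      (s2 _ _ v ((t1 _).1 hv) w ((t1 _).1 hw) d))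
    have := col_eq (G := G) (f := f) e (u1 _ u hu v hv) (u1 _ u hu w hw) (u2 i v hv w hw)
    rwa [(s1 _).2.2 u hu, (t1 _).2.2 v hv] at this
  refine ⟨f a d, fun p i => ?_⟩
  fin_cases p
  · obtain ⟨u, hu, v, hv, w, hw, e, e'⟩ := pick _ _ _ (s1 b).1 (t3 i) (t3 !i) (s1 b).2.1
      (t1 _).2.1 (t1 _).2.1
    exact (u3 i u hu v hv w hw).1 ▸
      hc H u (a1 ((s1 b).1 hu)) v (a1 (t3 _ hv)) w (a1 (t3 _ hw)) e e'
  · obtain ⟨v, hv, u, hu, w, hw, e, e'⟩ := pick _ _ _ (t3 i) (s1 b).1 (t3 !i)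
      (t1 _).2.1 (s1 b).2.1 (t1 _).2.1
    exact (u3 i u hu v hv w hw).2.1 ▸
      hc H v (a1 (t3 _ hv)) u (a1 ((s1 b).1 hu)) w (a1 (t3 _ hw)) e e'
  · obtain ⟨v, hv, w, hw, u, hu, e, e'⟩ := pick _ _ _ (t3 i) (t3 !i) (s1 b).1
      (t1 _).2.1 (t1 _).2.1 (s1 b).2.1
    exact (u3 i u hu v hv w hw).2.2 ▸
      hc H v (a1 (t3 _ hv)) w (a1 (t3 _ hw)) u (a1 ((s1 b).1 hu)) e e'

theorem sharp_of {k m t : ℕ} [NeZero m] (T : Bool → Fin m → Fin 3 × Bool → Fin k)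
    (h1 : ∀ b, t ≤ (Finset.univ.image fun j => T b j (0, b)).card)
    (h2 : ∀ j j', t ≤ (Finset.univ.image (T false j) ∪ Finset.univ.image (T true j')).card) :
    ∃ c : Finset (O1 → Bool) → Fin k, ∀ H : Set (O1 → Bool), ¬ H.Countable →
      t ≤ (c '' {s | ↑s ⊆ H ∧ s.card = 3}).ncard := by
  obtain ⟨o, ho⟩ := exists_wellFoundedLT (O1 → Bool)
  obtain ⟨c, hc⟩ := @stepup _ _ o ho id Function.injective_id
    fun b j p i => T b (Fin.ofNat m j) (p, i)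
  refine ⟨c, fun H hH => ?_⟩
  rcases hc H hH with ⟨b, h⟩ | h
  · refine (h1 b).trans ((ncard_coe_finset _).ge.trans (ncard_le_ncard fun x hx => ?_))
    obtain ⟨j, -, rfl⟩ := Finset.mem_image.1 hx
    simpa using h j
  · obtain ⟨j, hj⟩ := h false
    obtain ⟨j', hj'⟩ := h true
    refine (h2 (Fin.ofNat m j) (Fin.ofNat m j')).trans
      ((ncard_coe_finset _).ge.trans (ncard_le_ncard fun x hx => ?_))
    rcases Finset.mem_union.1 hx with k | k <;> obtain ⟨q, -, rfl⟩ := Finset.mem_image.1 k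
    exacts [hj q.1 q.2, hj' q.1 q.2]

/-- The position of an order type in a row of the tables. -/
def pos (b : Bool) (q : Fin 3 × Bool) : Fin 6 := ⟨2 * q.1 + if q.2 = b then 0 else 1, by
  have := q.1.2
  split_ifs <;> omega⟩

theorem sharp14 : ∃ c : Finset (O1 → Bool) → Fin 14, ∀ H : Set (O1 → Bool), ¬ H.Countable →
    11 ≤ (c '' {s | ↑s ⊆ H ∧ s.card = 3}).ncard :=
  sharp_of (m := 11) (fun b j q => (if b then
    ![![0, 1, 2, 3, 4, 5], ![1, 0, 2, 3, 4, 5], ![2, 0, 1, 3, 4, 5], ![3, 0, 1, 2, 4, 5],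
      ![4, 0, 1, 2, 3, 5], ![5, 0, 1, 2, 3, 4], ![6, 0, 1, 2, 3, 4], ![7, 0, 1, 2, 3, 4],
      ![8, 0, 1, 2, 3, 4], ![9, 0, 1, 2, 5, 6], ![10, 0, 1, 2, 5, 6]] else
    ![![3, 9, 10, 11, 12, 13], ![4, 9, 10, 11, 12, 13], ![5, 7, 8, 11, 12, 13],
      ![6, 7, 8, 11, 12, 13], ![7, 8, 9, 11, 12, 13], ![8, 7, 9, 11, 12, 13],
      ![9, 7, 8, 11, 12, 13], ![10, 7, 8, 11, 12, 13], ![11, 7, 8, 9, 12, 13],
      ![12, 7, 8, 9, 11, 13], ![13, 7, 8, 9, 11, 12]] : Fin 11 → Fin 6 → Fin 14) j (pos b q))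
    (by decide +kernel) (by decide +kernel)

theorem sharp24 : ∃ c : Finset (O1 → Bool) → Fin 24, ∀ H : Set (O1 → Bool), ¬ H.Countable →
    12 ≤ (c '' {s | ↑s ⊆ H ∧ s.card = 3}).ncard :=
  sharp_of (m := 12) (fun b j q => Fin.ofNat 24 ((j + pos b q) % 12 + if b then 12 else 0))
    (by decide +kernel) (by decide +kernel)

end Pool.Agent.Lib.MP_f42089_lc
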