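import Pool.Agent.Lib.MP_f42089_lc.Cnt

/-! Todorcevic's colouring of pairs of countable ordinals with infinitely many colours. -/

namespace Pool.Agent.Lib.MP_f42089_lc

open Set

instance : Nonempty O1 := ⟨(O1.bdd countable_empty).choose⟩

theorem O1.countable_Iic (a : O1) : (Iic a).Countable := by
  rw [← Iio_insert]
  exact (O1.countable_Iio a).insert a

theorem O1.unb {A : Set O1} (h : ¬ A.Countable) (a : O1) : ∃ b ∈ A, a < b := by
  by_contra h'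
  exact h ((O1.countable_Iic a).mono fun b hb => not_lt.1 fun k => h' ⟨b, hb, k⟩)

section
variable {ι : Type} [LinearOrder ι]

/-- `a` is the first place where `x` and `y` differ. -/
def Spl (x y : ι → Bool) (a : ι) : Prop := x a ≠ y a ∧ ∀ c < a, x c = y c

/-- The first place where `x` and `y` differ. -/
noncomputable def dl [Nonempty ι] (x y : ι → Bool) : ι := Classical.epsilon (Spl x y)

theorem Spl.symm {x y : ι → Bool} {a : ι} (h : Spl x y a) : Spl y x a :=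
  ⟨h.1.symm, fun c hc => (h.2 c hc).symm⟩

theorem Spl.eq [Nonempty ι] {x y : ι → Bool} {a : ι} (h : Spl x y a) : dl x y = a := by
  have h' : Spl x y (dl x y) := Classical.epsilon_spec ⟨a, h⟩
  exact le_antisymm (not_lt.1 fun k => h.1 (h'.2 _ k)) (not_lt.1 fun k => h'.1 (h.2 _ k))

theorem exists_spl [WellFoundedLT ι] {x y : ι → Bool} (h : x ≠ y) : ∃ a, Spl x y a := by
  obtain ⟨a, h1, h2⟩ := wellFounded_lt.has_min {a | x a ≠ y a} (Function.ne_iff.1 h)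
  exact ⟨a, h1, fun c hc => by_contra fun k => h2 c k hc⟩

end

/-- The set meets every set of closure points. -/
def Stat (S : Set O1) : Prop := ∀ h : O1 → O1, ∃ δ ∈ S, ∀ a < δ, h a < δ

theorem stat_Ioi (ξ : O1) : Stat (Ioi ξ) := fun h => by
  choose nx hn using fun a : O1 => O1.bdd (((O1.countable_Iic a).image h).insert a)
  obtain ⟨δ, h1, h2⟩ := wellFounded_lt.has_min {d | ∀ n, nx^[n] ξ < d} (by
    obtain ⟨b, hb⟩ := O1.bdd (countable_range fun n => nx^[n] ξ)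
    exact ⟨b, fun n => hb _ ⟨n, rfl⟩⟩)
  refine ⟨δ, h1 0, fun a ha => ?_⟩
  obtain ⟨n, hn'⟩ : ∃ n, a ≤ nx^[n] ξ := by
    by_contra k
    exact h2 a (fun n => not_le.1 fun k' => k ⟨n, k'⟩) ha
  refine lt_trans ?_ (h1 (n + 1))
  rw [Function.iterate_succ_apply']
  exact hn _ _ (.inr ⟨a, hn', rfl⟩)

theorem Stat.union {S : ℕ → Set O1} (h : Stat (⋃ n, S n)) : ∃ n, Stat (S n) := by
  by_contra k
  simp only [Stat, not_exists, not_forall, not_and] at k
  choose g hg using k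
  choose b hb using fun a : O1 => O1.bdd (countable_range fun n => g n a)
  obtain ⟨δ, h1, h2⟩ := h b
  obtain ⟨n, h3⟩ := mem_iUnion.1 h1
  obtain ⟨a, h4, h5⟩ := hg n δ h3
  exact h5 ((hb a _ ⟨n, rfl⟩).trans (h2 a h4))

theorem exists_split : ∃ g : O1 → ℕ, ∀ j, Stat {δ | (∃ a, a < δ) ∧ g δ = j} := by
  classical
  choose e he using fun a : O1 => countable_iff_exists_injOn.1 (O1.countable_Iic a)
  choose n hn using fun ξ : O1 => Stat.union (S := fun n => {δ | ξ < δ ∧ e δ ξ = n}) fun h =>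
    let ⟨δ, a, b⟩ := stat_Ioi ξ h
    ⟨δ, mem_iUnion.2 ⟨_, a, rfl⟩, b⟩
  obtain ⟨m, hm⟩ : ∃ m, {ξ | n ξ = m}.Infinite := by
    by_contra k
    obtain ⟨b, hb⟩ := O1.bdd (s := ⋃ m, {ξ | n ξ = m})
      (countable_iUnion fun m => (not_infinite.1 fun k' => k ⟨m, k'⟩).countable)
    exact (hb b (mem_iUnion.2 ⟨_, rfl⟩)).false
  let x := hm.natEmbedding
  refine ⟨fun δ => if h : ∃ j, (x j).1 < δ ∧ e δ (x j) = m then h.choose else 0, fun j h => ?_⟩
  obtain ⟨δ, ⟨h1, h2⟩, h3⟩ := hn (x j) h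
  have h4 : ∃ j, (x j).1 < δ ∧ e δ (x j) = m := ⟨j, h1, h2.trans (x j).2⟩
  refine ⟨δ, ⟨⟨_, h1⟩, (dif_pos h4).trans (x.injective (Subtype.ext ?_))⟩, h3⟩
  exact he δ h4.choose_spec.1.le h1.le (h4.choose_spec.2.trans (h2.trans (x j).2).symm)

theorem exists_walk : ∃ c : O1 → O1 → O1, ∀ A : Set O1, ¬ A.Countable → ∃ h : O1 → O1, ∀ δ,
    (∃ a, a < δ) → (∀ a < δ, h a < δ) → ∃ α ∈ A, ∃ β ∈ A, α < β ∧ c α β = δ := by
  classical
  obtain ⟨r, hr⟩ := cnt_emb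
  choose e he using fun a : O1 => countable_iff_exists_injOn.1 (O1.countable_Iic a)
  refine ⟨fun α β => Classical.epsilon (IsLeast {ξ | α ≤ ξ ∧ e β ξ ≤ dl (r α) (r β)}),
    fun A hA => ?_⟩
  let N : (ℕ → Bool) → ℕ → Set O1 := fun t n => {α ∈ A | ∀ i < n, r α i = t i}
  have hN : {B | ∃ t n, B = N t n}.Countable := by
    refine (countable_range fun p : Finset ℕ × ℕ => N (fun i => decide (i ∈ p.1)) p.2).mono ?_
    rintro _ ⟨t, n, rfl⟩
    refine ⟨((Finset.range n).filter fun i => t i = true, n), ?_⟩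
    ext α
    refine and_congr_right fun _ => forall₂_congr fun i hi => ?_
    have hi' : i < n := hi
    simp [hi']
  obtain ⟨γ, hγ⟩ := O1.bdd (s := ⋃₀ {B | (∃ t n, B = N t n) ∧ B.Countable})
    ((hN.mono fun B h => h.1).sUnion fun B h => h.2)
  choose! u u1 u2 using fun (B : Set O1) (a : O1) (h : ¬ B.Countable) => O1.unb h a
  choose h hh using fun a : O1 => O1.bdd ((hN.image fun B => u B a).insert γ)
  refine ⟨h, fun δ ⟨a₀, h0⟩ hδ => ?_⟩
  obtain ⟨β, hβ, h1⟩ := O1.unb hA δ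
  have h2 : ¬ (N (r β) (e β δ)).Countable := fun k =>
    (hγ β ⟨_, ⟨⟨_, _, rfl⟩, k⟩, hβ, fun _ _ => rfl⟩).not_gt
      ((hh a₀ γ (.inl rfl)).trans ((hδ a₀ h0).trans h1))
  obtain ⟨m, h3, h4⟩ : ∃ m, e β δ ≤ m ∧
      ¬ (N (Function.update (r β) m (!r β m)) (m + 1)).Countable := by
    by_contra k
    refine h2 (((countable_iUnion fun m : {m // e β δ ≤ m} =>
      not_not.1 fun k' => k ⟨m.1, m.2, k'⟩).insert β).mono fun α hα => ?_)
    refine (eq_or_ne α β).imp id fun k' => ?_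
    obtain ⟨m, k1, k2⟩ := exists_spl (hr.ne k')
    refine mem_iUnion.2 ⟨⟨m, not_lt.1 fun k3 => k1 (hα.2 m k3)⟩, hα.1, fun i hi => ?_⟩
    rcases (Nat.lt_succ_iff.1 hi).eq_or_lt with rfl | k3
    · rw [Function.update_self]
      exact Bool.eq_not_iff.2 k1
    · rw [Function.update_of_ne k3.ne, k2 i k3]
  have h5 : (insert a₀ {ξ | ξ < δ ∧ e β ξ ≤ m}).Finite := Finite.insert _ (Finite.of_finite_image
    ((finite_Iic m).subset (by rintro _ ⟨ξ, k, rfl⟩; exact k.2))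
    ((he β).mono fun ξ k => (k.1.trans h1).le))
  obtain ⟨a, h6, h7⟩ := h5.exists_maximal (insert_nonempty _ _)
  have h8 : a < δ := h6.elim (fun k => k ▸ h0) fun k => k.1
  have k1 := u1 _ a h4
  have k2 := u2 _ a h4
  generalize hα : u (N (Function.update (r β) m (!r β m)) (m + 1)) a = α at k1 k2
  have k3 : α < δ := (hh a α (.inr ⟨_, ⟨_, _, rfl⟩, hα⟩)).trans (hδ a h8)
  have k4 : dl (r α) (r β) = m := Spl.eq ⟨by simp [k1.2 m m.lt_succ_self], fun i hi => by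
    rw [k1.2 i (hi.trans m.lt_succ_self), Function.update_of_ne hi.ne]⟩
  have k5 : IsLeast {ξ | α ≤ ξ ∧ e β ξ ≤ dl (r α) (r β)} δ :=
    ⟨⟨k3.le, k4 ▸ h3⟩, fun ξ k => not_lt.1 fun k' => (k2.trans_le k.1).not_ge
      (h7 (.inr ⟨k', k4 ▸ k.2⟩) (k2.le.trans k.1))⟩
  exact ⟨α, k1.1, β, hβ, k3.trans h1, (Classical.epsilon_spec ⟨δ, k5⟩ :).unique k5⟩

/-- Todorcevic's theorem. -/
theorem exists_tod : ∃ f : O1 → O1 → ℕ, ∀ A : Set O1, ¬ A.Countable → ∀ j,
    ∃ α ∈ A, ∃ β ∈ A, α < β ∧ f α β = j := by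
  obtain ⟨g, hg⟩ := exists_split
  obtain ⟨c, hc⟩ := exists_walk
  refine ⟨fun α β => g (c α β), fun A hA j => ?_⟩
  obtain ⟨h, hh⟩ := hc A hA
  obtain ⟨δ, ⟨h1, h2⟩, h3⟩ := hg j h
  obtain ⟨α, a, β, b, k, rfl⟩ := hh δ h1 h3
  exact ⟨α, a, β, b, k, h2⟩

end Pool.Agent.Lib.MP_f42089_lc
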